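import Pool.Agent.P.MP_4a6a31_lc.NoRef

/-! Fragments of choice in the forest models. -/

namespace Pool.Agent.P.MP_4a6a31_lc

universe u

open Equiv VV Cardinal

variable {I : Type u}

section col

variable {κ : Cardinal.{u}}

theorem card_iUnion (hκ : ℵ₀ ≤ κ) {ι : Type u} (hι : #ι ≤ κ) (s : ι → Set I)
    (hs : ∀ i, #(s i) ≤ κ) : #(⋃ i, s i) ≤ κ :=
  (mk_iUnion_le s).trans ((mul_le_mul' hι (ciSup_le' hs)).trans (mul_eq_self hκ).le)

theorem card_union (hκ : ℵ₀ ≤ κ) {s t : Set I} (hs : #s ≤ κ) (ht : #t ≤ κ) :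
    #(s ∪ t : Set I) ≤ κ :=
  (mk_union_le s t).trans ((add_le_add hs ht).trans (add_eq_self hκ).le)

/-- Supports: at most `κ` columns. -/
def idlC (hκ : ℵ₀ ≤ κ) (hI : κ < #I) : Idl I where
  S := {F | #(Prod.snd '' F) ≤ κ}
  empty := by simp
  single a := by simpa using one_le_aleph0.trans hκ
  union F hF F' hF' := by
    change #(Prod.snd '' (F ∪ F')) ≤ κ
    rw [Set.image_union]
    exact card_union hκ hF hF'
  image g hg F hF := by
    refine le_trans (mk_le_mk_of_subset (t := (fun i => (g ([], i)).2) '' (Prod.snd '' F)) ?_)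
      (mk_image_le.trans hF)
    rintro _ ⟨_, ⟨a, ha, rfl⟩, rfl⟩
    exact ⟨_, ⟨a, ha, rfl⟩, (col_apply hg.1 a.1 a.2).symm⟩
  avoid F hF := by
    have h1 := card_iUnion hκ (ι := ULift.{u} ℕ) (by simpa using hκ)
      (fun n => Prod.snd '' F n.down) fun n => hF n.down
    by_contra hn
    have h2 : (⋃ n : ULift.{u} ℕ, Prod.snd '' F n.down) = Set.univ :=
      Set.eq_univ_of_forall fun i => by
        by_contra h
        exact hn ⟨i, fun n a ha e => (h (Set.mem_iUnion.2 ⟨⟨n⟩, a, ha, e⟩)).elim⟩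
    rw [h2, mk_univ] at h1
    exact absurd h1 (not_le.2 hI)

variable (hκ : ℵ₀ ≤ κ) (hI : κ < #I)

theorem cols_mem {C : Set I} (hC : #C ≤ κ) : {a : At I | a.2 ∈ C} ∈ (idlC hκ hI).S :=
  le_trans (mk_le_mk_of_subset (t := C) (by
    rintro _ ⟨a, ha, rfl⟩
    exact ha)) hC

/-- The model is closed under short sequences. -/
theorem seqM (d w : (frame (idlC hκ hI)).M)
    (hd : ∀ a, (frame _).E a d → ∀ g : Perm (At I), g • a.1 = a.1)
    (hc : #{x // (frame _).E x d} ≤ lift.{u + 1} κ) (f : (frame (idlC hκ hI)).M → (frame _).M)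
    (hf : ∀ a, (frame _).E a d → (frame _).E (f a) w) :
    ∃ s, Fn (frame _).E (frame _).U s d ∧
      ∀ a b, App (frame _).E s a b ↔ (frame _).E a d ∧ b = f a := by
  choose F hF hfix using fun a => supp (f a)
  have : Small.{u} {x // (frame _).E x d} := Frame.smallE d
  have h1 : #(Shrink.{u} {x // (frame _).E x d}) ≤ κ := by
    rw [← lift_le.{u + 1}, lift_mk_shrink''.{u + 1, u}]
    exact hc
  have h2 := card_iUnion hκ h1 (fun x => Prod.snd '' F ((equivShrink _).symm x).1) fun x => hF _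
  refine Frame.mkFun d f w.2.2 (fun a ha c hc => Ker.mem (hf a ha) hc)
    (fix_mem (cols_mem hκ hI h2)) fun g hg e he a ha => ?_
  rw [he.fix (hd a ha g), he.fix (hfix a g (Fix_mono (fun c hc => ?_) hg))]
  exact Set.mem_iUnion.2 ⟨equivShrink _ ⟨a, ha⟩, c, by simpa using hc, rfl⟩

theorem dc (k : (frame (idlC hκ hI)).M) (hk : Ord (frame _).E (frame _).U k)
    (hc : #{x // (frame _).E x k} ≤ lift.{u + 1} κ) : DC (frame _).E (frame _).U k := by
  intro w R h
  let y : (frame (idlC hκ hI)).M → (frame (idlC hκ hI)).M := Frame.wfE.fix fun j rec =>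
    @Classical.epsilon _ ⟨j⟩ fun y => (frame _).E y w ∧ ∃ s, Fn (frame _).E (frame _).U s j ∧
      (∀ a (h : (frame _).E a j), App (frame _).E s a (rec a h)) ∧ App (frame _).E R s y
  have hy : ∀ j, y j = @Classical.epsilon _ ⟨j⟩ fun z => (frame _).E z w ∧
      ∃ s, Fn (frame _).E (frame _).U s j ∧
        (∀ a, (frame _).E a j → App (frame _).E s a (y a)) ∧ App (frame _).E R s z :=
    fun j => WellFounded.fix_eq _ _ _
  have key : ∀ j, (frame _).E j k → (frame _).E (y j) w ∧ ∃ s, Fn (frame _).E (frame _).U s j ∧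
      (∀ a, (frame _).E a j → App (frame _).E s a (y a)) ∧ App (frame _).E R s (y j) := by
    intro j
    induction j using Frame.wfE.induction with | _ j ih => ?_
    intro hj
    have ht := fun a => hk.2.2.1 j a hj
    obtain ⟨s, hs, happ⟩ := seqM hκ hI j w (fun a ha => Frame.ord_fix hk (ht a ha))
      ((mk_subtype_mono ht).trans hc) y fun a ha => (ih a ha (ht a ha)).1
    obtain ⟨z, h1, h2⟩ := h j s hj hs fun a b hab => by
      obtain ⟨ha, rfl⟩ := (happ a b).1 hab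
      exact (ih a ha (ht a ha)).1
    rw [hy]
    exact Classical.epsilon_spec (p := fun z => (frame _).E z w ∧
      ∃ s, Fn (frame _).E (frame _).U s j ∧
        (∀ a, (frame _).E a j → App (frame _).E s a (y a)) ∧ App (frame _).E R s z)
      ⟨z, h1, s, hs, fun a ha => (happ _ _).2 ⟨ha, rfl⟩, h2⟩
  obtain ⟨f, hf, happ⟩ := seqM hκ hI k w (fun a ha => Frame.ord_fix hk ha) hc y
    fun a ha => (key a ha).1
  refine ⟨f, hf, fun a b hab => ?_, fun j hj => ?_⟩
  · obtain ⟨ha, rfl⟩ := (happ a b).1 hab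
    exact (key a ha).1
  · obtain ⟨-, s, hs, h1, h2⟩ := key j hj
    refine ⟨s, y j, hs, fun a b hab => ?_, (happ _ _).2 ⟨hj, rfl⟩, h2⟩
    have ha := Frame.Fn_dom hs hab
    exact (happ _ _).2 ⟨hk.2.2.1 j a hj ha, (hs.2.2 a ha).unique hab (h1 a ha)⟩

theorem acwo : ACWO (frame (idlC hκ hI)).E (frame _).U := by
  classical
  intro k Φ hk hΦ hne
  obtain ⟨F0, hF0, hfix⟩ := supp Φ
  have : Infinite I := infinite_iff.2 (hκ.trans hI.le)
  obtain ⟨C, hC, hC'⟩ : ∃ C ⊆ (Prod.snd '' F0)ᶜ, #C = κ := le_mk_iff_exists_subset.1 (by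
    rw [mk_compl_of_infinite _ (lt_of_le_of_lt hF0 hI)]
    exact hI.le)
  have hex : ∀ j, (frame _).E j k → ∃ z : (frame (idlC hκ hI)).M,
      (∀ X, App (frame _).E Φ j X → (frame _).E z X) ∧
      ∀ g ∈ Fix {a : At I | a.2 ∈ Prod.snd '' F0 ∪ C}, g • z.1 = z.1 := fun j hj => by
    obtain ⟨X, hX, hu⟩ := hΦ.2.2 j hj
    obtain ⟨z, hz⟩ := hne j X hX
    obtain ⟨F1, hF1, hfix1⟩ := supp z
    obtain ⟨ι⟩ := (Cardinal.le_def _ _).1 (le_trans hF1 hC'.ge)
    obtain ⟨σ, hσ⟩ := ext_perm (Prod.snd '' F0 ∪ Prod.snd '' F1)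
      ((card_union hκ hF0 hF1).trans_lt hI)
      (fun i => if h : i ∉ Prod.snd '' F0 ∧ i ∈ Prod.snd '' F1 then (ι ⟨i, h.2⟩).1 else i)
      fun i hi i' hi' h => by
        dsimp only at h
        split_ifs at h with h1 h2 h2
        · exact congrArg Subtype.val (ι.injective (Subtype.ext h))
        · exact (hC (ι _).2 (h ▸ not_not.1 fun h3 => h2 ⟨h3, hi'.resolve_left h3⟩)).elim
        · exact (hC (ι _).2 (h ▸ not_not.1 fun h3 => h1 ⟨h3, hi.resolve_left h3⟩)).elim
        · exact h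
    have hg : Equiv.prodCongr (Equiv.refl _) σ ∈ Fix F0 :=
      ⟨fun _ => rfl, fun _ => rfl, fun a ha => Prod.ext rfl
        ((hσ a.2 (Or.inl ⟨a, ha, rfl⟩)).trans (dif_neg fun h => h.1 ⟨a, ha, rfl⟩))⟩
    obtain ⟨e, he⟩ := ind_of_fix (D := idlC hκ hI) hg
    refine ⟨e z, fun X' hX' => ?_, fun g hg' => ?_⟩
    · have h1 := (app_aut e he.hE Φ j X).2 hX
      rw [he.fix (hfix _ hg), he.fix (Frame.ord_fix hk hj _)] at h1
      rw [hu X' hX', ← hu _ h1]
      exact (he.hE _ _).2 hz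
    · have h1 := hfix1 _ (Fix_conj (Fix_sub hg) (Fix_mono ?_ hg'))
      · rw [mul_smul, mul_smul, inv_smul_eq_iff] at h1
        rw [he, h1]
      · rintro _ ⟨a, ha, rfl⟩
        change σ a.2 ∈ Prod.snd '' F0 ∪ C
        rw [hσ a.2 (Or.inr ⟨a, ha, rfl⟩)]
        split_ifs with h
        · exact Or.inr (ι _).2
        · exact Or.inl (not_not.1 fun h3 => h ⟨h3, a, ha, rfl⟩)
  have : Nonempty (frame (idlC hκ hI)).M := ⟨k⟩
  choose! z hz hs using hex
  obtain ⟨g, hg, happ⟩ := Frame.mkFun k z Φ.2.2 (fun a ha c hc => by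
      obtain ⟨X, hX⟩ := (hΦ.2.2 a ha).exists
      exact Frame.ker_app hX (Ker.mem (hz a ha X hX) hc))
    (fix_mem (cols_mem hκ hI (card_union hκ hF0 hC'.le))) fun g hg e he a ha => by
      rw [he.fix (Frame.ord_fix hk ha g), he.fix (hs a ha g hg)]
  refine ⟨g, hg, fun j X y hX hy => ?_⟩
  obtain ⟨hj, rfl⟩ := (happ _ _).1 hy
  exact hz j hj X hX

theorem plen : Plen (frame (idlC hκ hI)).E (frame _).U := by
  classical
  intro k hk
  have : Small.{u} {x // (frame _).E x k} := Frame.smallE k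
  obtain ⟨i⟩ := (infinite_iff.2 (hκ.trans hI.le)).nonempty
  obtain ⟨t, ht⟩ : ∃ t : {x // (frame _).E x k} → Ordinal.{u}, Function.Injective t :=
    ⟨fun p => Ordinal.typein (α := Shrink.{u} _) WellOrderingRel (equivShrink _ p),
      fun p q h => (equivShrink _).injective ((Ordinal.typein _).toRelEmbedding.injective h)⟩
  obtain ⟨f, hf, happ⟩ := Frame.mkFun k
    (fun a => if h : (frame _).E a k then atM _ ([(t ⟨a, h⟩, 0)], i) else a)
    (K := {a | nd a ∈ {[]} ∪ Set.image2 List.cons (Set.range t) {[]}})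
    ⟨_, good_root.grow _ inferInstance, fun _ h => h⟩ (fun a ha c hc => by
      rw [dif_pos ha] at hc
      rw [ker_atom hc]
      exact Or.inr ⟨_, ⟨_, rfl⟩, _, rfl, rfl⟩)
    (fix_mem (cols_mem hκ hI (C := {i}) (by simpa using one_le_aleph0.trans hκ)))
    fun g hg e he a ha => by
      rw [he.fix (Frame.ord_fix hk ha g), dif_pos ha, ind_atM he, hg.2.2 _ rfl]
  refine ⟨f, hf, fun a b h => ?_, fun a a' b h h' => ?_⟩
  · obtain ⟨ha, rfl⟩ := (happ _ _).1 h
    rw [dif_pos ha]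
    exact U_atM _
  · obtain ⟨ha, e⟩ := (happ _ _).1 h
    obtain ⟨ha', e'⟩ := (happ _ _).1 h'
    rw [dif_pos ha] at e
    rw [dif_pos ha', e] at e'
    exact congrArg Subtype.val
      (ht (congrArg Prod.fst (List.cons.inj (congrArg Prod.fst (atM_inj e'))).1))

end col

section fin

/-- Supports: all roots and finitely many other atoms. -/
def idlF (I : Type u) [Uncountable I] : Idl I where
  S := {F | {a ∈ F | a.1 ≠ []}.Finite}
  empty := by simp
  single a := (Set.finite_singleton a).subset fun _ h => h.1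
  union F hF F' hF' := (Set.Finite.union hF hF').subset fun _ h =>
    h.1.imp (fun h' => ⟨h', h.2⟩) fun h' => ⟨h', h.2⟩
  image g hg F hF := (Set.Finite.image g hF).subset (by
    rintro _ ⟨⟨a, ha, rfl⟩, h⟩
    exact ⟨a, ⟨ha, fun e => h ((GG_nil hg a).2 e)⟩, rfl⟩)
  avoid F hF := by
    have h1 : (⋃ n, Prod.snd '' {a ∈ F n | a.1 ≠ []}).Countable :=
      Set.countable_iUnion fun n => (Set.Finite.image _ (hF n)).countable
    by_contra hn
    refine Set.not_countable_univ (h1.mono fun i _ => ?_)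
    by_contra h
    exact hn ⟨i, fun n a ha e => not_not.1 fun h' => h (Set.mem_iUnion.2 ⟨n, a, ⟨ha, h'⟩, e⟩)⟩

theorem block_finite (a : At I) : {b : At I | nd b = nd a ∧ b.2 = a.2}.Finite :=
  Set.Finite.of_injOn (f := fun b => b.1.map Prod.snd) (fun b hb => by
      simpa [nd] using congrArg List.length hb.1)
    (fun _ hb _ hc h => at_ext (hb.1.trans hc.1.symm) h (hb.2.trans hc.2.symm))
    (List.finite_length_eq (Fin 3) a.1.length)

variable [Uncountable I]

/-- The orbit under the automorphisms that fix all roots. -/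
def orb (y : (frame (idlF I)).M) : Set (frame (idlF I)).M :=
  {z | ∃ g ∈ Fix {a : At I | a.1 = []}, z.1 = g • y.1}

theorem orb_ind {g : Perm (At I)} (hg : g ∈ Fix {a : At I | a.1 = []})
    {e : Perm (frame (idlF I)).M} (he : (frame _).Ind g e) (y : (frame (idlF I)).M) :
    orb (e y) = orb y := by
  ext z
  constructor
  · rintro ⟨k, hk, h⟩
    exact ⟨k * g, Fix_mul hk hg, by rw [h, he, mul_smul]⟩
  · rintro ⟨k, hk, h⟩
    exact ⟨k * g⁻¹, Fix_mul hk (Fix_inv hg), by rw [h, he, mul_smul, inv_smul_smul]⟩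

theorem orb_finite (y : (frame (idlF I)).M) : (orb y).Finite := by
  obtain ⟨F, hF, hfix⟩ := supp y
  have hc : ∀ z ∈ orb y, ∃ g ∈ Fix {a : At I | a.1 = []}, z.1 = g • y.1 := fun _ h => h
  choose! g hg hz using hc
  have : Finite {a ∈ F | a.1 ≠ []} := hF
  refine Set.Finite.of_injOn (f := fun z (a : {a ∈ F | a.1 ≠ []}) => g z a.1)
    (t := {r | ∀ a, r a ∈ {b : At I | nd b = nd a.1 ∧ b.2 = a.1.2}}) ?_
    (fun z h1 z' h2 h => Subtype.ext ?_) 
    (Set.Finite.pi' fun a : {a ∈ F | a.1 ≠ []} => block_finite a.1)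
  · intro z hz a
    exact ⟨(hg z hz).2.1 _, (col_apply (hg z hz).1 _ _).trans
      (congrArg Prod.snd ((hg z hz).2.2 ([], a.1.2) rfl) :)⟩
  · have h3 := Fix_mul (Fix_inv (hg z' h2)) (hg z h1)
    have h4 := hfix _ ⟨h3.1, h3.2.1, fun a ha => by
      by_cases h5 : a.1 = []
      · exact h3.2.2 a h5
      · rw [Perm.mul_apply, Perm.inv_eq_iff_eq]
        exact congrFun h ⟨a, ha, h5⟩⟩
    rw [mul_smul, inv_smul_eq_iff] at h4
    rw [hz z h1, hz z' h2, h4]

theorem mc : MC (frame (idlF I)).E (frame _).U := by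
  intro w hw
  have hR : {a : At I | a.1 = []} ∈ (idlF I).S := Set.finite_empty.subset fun _ h => h.2 h.1
  let c : (frame (idlF I)).M → Set (frame (idlF I)).M := fun x =>
    Classical.epsilon fun T => T ∈ orb '' {y | (frame _).E y x}
  choose f hf0 hf using fun x => Frame.sepM x (fun z => orb z = c x) (fix_mem hR)
    fun g hg e he y => by rw [orb_ind hg he]
  obtain ⟨s, hs, happ⟩ := Frame.mkFun w f w.2.2 (fun a ha d hd => by
      obtain ⟨z, hz, hk⟩ := Frame.kerE (hf0 a) hd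
      exact Ker.mem ha (Ker.mem ((hf a z).1 hz).1 hk)) (fix_mem hR) fun g hg e he a _ => by
    have h1 : orb '' {y | (frame _).E y (e a)} = orb '' {y | (frame _).E y a} := by
      ext T
      constructor
      · rintro ⟨y, hy, rfl⟩
        obtain ⟨y, rfl⟩ := e.surjective y
        exact ⟨y, (he.hE _ _).1 hy, (orb_ind hg he y).symm⟩
      · rintro ⟨y, hy, rfl⟩
        exact ⟨e y, (he.hE _ _).2 hy, orb_ind hg he y⟩
    refine Frame.extE (hf0 _) (by rw [he.hU]; exact hf0 a) fun z => ?_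
    obtain ⟨z, rfl⟩ := e.surjective z
    rw [hf, he.hE, he.hE, hf, orb_ind hg he]
    simp only [c, h1]
  refine ⟨s, hs, fun x y h => ?_⟩
  obtain ⟨hx, rfl⟩ := (happ _ _).1 h
  obtain ⟨z, hz⟩ := hw x hx
  obtain ⟨z0, h0, h1⟩ := Classical.epsilon_spec
    (p := fun T => T ∈ orb '' {y | (frame _).E y x}) ⟨_, z, hz, rfl⟩
  refine ⟨⟨z0, (hf _ _).2 ⟨h0, h1⟩⟩, fun z hz => ((hf _ _).1 hz).1,
    (orb_finite z0).subset fun z hz => ?_⟩
  rw [h1.trans ((hf _ _).1 hz).2.symm]
  exact ⟨1, Fix_one _, (one_smul _ _).symm⟩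

end fin

end Pool.Agent.P.MP_4a6a31_lc
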