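import Mathlib

/-!
Definitions for the hand-in on Collection versus weak reflection in set theory with
urelements.  A structure is a type `M` with a binary relation `E` (membership) and a unary
predicate `U` (being an urelement).
-/

namespace Pool.Agent.P.MP_4a6a31_lc

universe v

/-- First-order formulas in the language of membership and the urelement predicate, with free
variables among `Fin n`. -/
inductive Fm : ℕ → Type
  | mem {n : ℕ} (i j : Fin n) : Fm n
  | eq {n : ℕ} (i j : Fin n) : Fm n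
  | ur {n : ℕ} (i : Fin n) : Fm n
  | neg {n : ℕ} (φ : Fm n) : Fm n
  | and {n : ℕ} (φ ψ : Fm n) : Fm n
  | all {n : ℕ} (φ : Fm (n + 1)) : Fm n

variable {M : Type v} (E : M → M → Prop) (U : M → Prop)

/-- Truth of a formula with all quantifiers bounded to `D`.  `D = fun _ => True` is truth in the
structure, `D = fun x => E x t` is truth of the relativisation to `t`. -/
def Sat (D : M → Prop) : {n : ℕ} → Fm n → (Fin n → M) → Prop
  | _, .mem i j, p => E (p i) (p j)
  | _, .eq i j, p => p i = p j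
  | _, .ur i, p => U (p i)
  | _, .neg φ, p => ¬ Sat D φ p
  | _, .and φ ψ, p => Sat D φ p ∧ Sat D ψ p
  | _, .all φ, p => ∀ x, D x → Sat D φ (Fin.cons x p)

/-- The structure is a model of ZFU with Replacement (no choice). -/
structure ZFUR : Prop where
  ur_empty : ∀ a x, U a → ¬ E x a
  ext : ∀ x y, ¬ U x → ¬ U y → (∀ z, E z x ↔ E z y) → x = y
  found : ∀ x, (∃ z, E z x) → ∃ z, E z x ∧ ∀ y, E y z → ¬ E y x
  pair : ∀ a b, ∃ s, ¬ U s ∧ ∀ z, E z s ↔ z = a ∨ z = b
  union : ∀ x, ∃ s, ¬ U s ∧ ∀ z, E z s ↔ ∃ y, E y x ∧ E z y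
  power : ∀ x, ∃ s, ¬ U s ∧ ∀ z, E z s ↔ ¬ U z ∧ ∀ y, E y z → E y x
  inf : ∃ s, (∃ e, E e s ∧ ¬ U e ∧ ∀ z, ¬ E z e) ∧
    ∀ y, E y s → ∃ y', E y' s ∧ ¬ U y' ∧ ∀ z, E z y' ↔ E z y ∨ z = y
  sep : ∀ (n : ℕ) (φ : Fm (n + 1)) (p : Fin n → M) (w : M), ∃ s, ¬ U s ∧
    ∀ z, E z s ↔ E z w ∧ Sat E U (fun _ => True) φ (Fin.cons z p)
  repl : ∀ (n : ℕ) (φ : Fm (n + 2)) (p : Fin n → M) (w : M),
    (∀ x, E x w → ∃! y, Sat E U (fun _ => True) φ (Fin.cons y (Fin.cons x p))) →
    ∃ s, ¬ U s ∧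
      ∀ y, E y s ↔ ∃ x, E x w ∧ Sat E U (fun _ => True) φ (Fin.cons y (Fin.cons x p))

/-- The Collection scheme. -/
def Coll : Prop :=
  ∀ (n : ℕ) (φ : Fm (n + 2)) (p : Fin n → M) (w : M),
    (∀ x, E x w → ∃ y, Sat E U (fun _ => True) φ (Fin.cons y (Fin.cons x p))) →
    ∃ s, ¬ U s ∧
      ∀ x, E x w → ∃ y, E y s ∧ Sat E U (fun _ => True) φ (Fin.cons y (Fin.cons x p))

/-- The weak reflection scheme: a true formula holds relativised to some transitive set
containing its parameters. -/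
def RPm : Prop :=
  ∀ (n : ℕ) (φ : Fm n) (p : Fin n → M), Sat E U (fun _ => True) φ p →
    ∃ t, ¬ U t ∧ (∀ x y, E x t → E y x → E y t) ∧ (∀ i, E (p i) t) ∧
      Sat E U (fun x => E x t) φ p

/-- `Pr q a b`: `q` is the Kuratowski pair `{{a}, {a, b}}`. -/
def Pr (q a b : M) : Prop :=
  ∀ z, E z q ↔ (∀ y, E y z ↔ y = a) ∨ (∀ y, E y z ↔ y = a ∨ y = b)

/-- `App f a b`: the Kuratowski pair of `a` and `b` is a member of `f`. -/
def App (f a b : M) : Prop := ∃ q, E q f ∧ Pr E q a b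

/-- `Fn f d`: `f` is a function (a set of Kuratowski pairs) with domain `d`. -/
def Fn (f d : M) : Prop :=
  ¬ U f ∧ (∀ q, E q f → ∃ a b, E a d ∧ Pr E q a b) ∧ ∀ a, E a d → ∃! b, App E f a b

/-- `k` is a von Neumann ordinal: a transitive set of sets, linearly ordered by membership. -/
def Ord (k : M) : Prop :=
  ¬ U k ∧ (∀ x, E x k → ¬ U x) ∧ (∀ x y, E x k → E y x → E y k) ∧
    ∀ x y, E x k → E y k → E x y ∨ x = y ∨ E y x

/-- Choice for all well-ordered families of nonempty sets. -/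
def ACWO : Prop :=
  ∀ k F, Ord E U k → Fn E U F k → (∀ j X, App E F j X → ∃ z, E z X) →
    ∃ g, Fn E U g k ∧ ∀ j X z, App E F j X → App E g j z → E z X

/-- Dependent choice of length `k` (for sets): if every sequence of length below `k` in `w` has
an `R`-successor in `w`, some `f : k → w` has `f j` an `R`-successor of its restriction to `j`
for all `j` in `k`. -/
def DC (k : M) : Prop :=
  ∀ w R, (∀ j s, E j k → Fn E U s j → (∀ a b, App E s a b → E b w) → ∃ y, E y w ∧ App E R s y) →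
    ∃ f, Fn E U f k ∧ (∀ a b, App E f a b → E b w) ∧ ∀ j, E j k →
      ∃ s y, Fn E U s j ∧ (∀ a b, App E s a b → App E f a b) ∧ App E f j y ∧ App E R s y

/-- Plenitude: every ordinal is mapped injectively to urelements by some function. -/
def Plen : Prop :=
  ∀ k, Ord E U k → ∃ f, Fn E U f k ∧ (∀ a b, App E f a b → U b) ∧
    ∀ a a' b, App E f a b → App E f a' b → a = a'

/-- Multiple choice: a function picking a nonempty finite subset of every member of `w`. -/
def MC : Prop :=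
  ∀ w, (∀ x, E x w → ∃ z, E z x) → ∃ g, Fn E U g w ∧
    ∀ x y, App E g x y → (∃ z, E z y) ∧ (∀ z, E z y → E z x) ∧ {z | E z y}.Finite

end Pool.Agent.P.MP_4a6a31_lc
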