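import Pool.Agent.P.MP_4a6a31_lc.Tree

/-! Weak reflection fails in the forest models. -/

namespace Pool.Agent.P.MP_4a6a31_lc

universe u v

open Equiv VV

section Generic

variable {M : Type v} (E : M → M → Prop) (U : M → Prop)

/-- `f` holds a pair with first coordinate `b` and second coordinate `a`, different from `b`. -/
def Rl (f a b : M) : Prop :=
  a ≠ b ∧ ∃ q, E q f ∧ (∀ s, E s q → E b s) ∧ ∃ t, E t q ∧ E a t

/-- `a` is a member of a member of a member of `x`. -/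
def In3 (x a : M) : Prop := ∃ q, E q x ∧ ∃ s, E s q ∧ E a s

def fex {n : ℕ} (φ : Fm (n + 1)) : Fm n := .neg (.all (.neg φ))

def fimp {n : ℕ} (φ ψ : Fm n) : Fm n := .neg (.and φ (.neg ψ))

def frl {n : ℕ} (f a b : Fin n) : Fm n :=
  .and (.neg (.eq a b)) (fex (.and (.mem 0 f.succ) (.and
    (.all (fimp (.mem 0 (Fin.succ 0)) (.mem b.succ.succ 0)))
    (fex (.and (.mem 0 (Fin.succ 0)) (.mem a.succ.succ 0))))))

def fin3 {n : ℕ} (x a : Fin n) : Fm n :=
  fex (.and (.mem 0 x.succ) (fex (.and (.mem 0 (Fin.succ 0)) (.mem a.succ.succ 0))))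

/-- Every set of urelements is covered by a fixed-point free map from urelements. -/
def phi : Fm 1 :=
  .all (fex (.and
    (.all (fimp (.ur 0) (fimp (fin3 (Fin.succ (Fin.succ 0)) 0)
      (fex (.and (.ur 0) (frl (Fin.succ (Fin.succ 0)) (Fin.succ 0) 0))))))
    (.all (.all (.all (fimp (frl (Fin.succ (Fin.succ (Fin.succ 0))) (Fin.succ (Fin.succ 0)) 0)
      (fimp (frl (Fin.succ (Fin.succ (Fin.succ 0))) (Fin.succ 0) 0)
        (.eq (Fin.succ (Fin.succ 0)) (Fin.succ 0)))))))))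

variable {E U} {D : M → Prop}

theorem sat_ex {n : ℕ} (φ : Fm (n + 1)) (p : Fin n → M) :
    Sat E U D (fex φ) p ↔ ∃ x, D x ∧ Sat E U D φ (Fin.cons x p) := by simp [fex, Sat]

theorem sat_imp {n : ℕ} (φ ψ : Fm n) (p : Fin n → M) :
    Sat E U D (fimp φ ψ) p ↔ (Sat E U D φ p → Sat E U D ψ p) := by simp [fimp, Sat]

theorem sat_rl (hD : ∀ x y, D x → E y x → D y) {n : ℕ} (f a b : Fin n) (p : Fin n → M)
    (hf : D (p f)) : Sat E U D (frl f a b) p ↔ Rl E (p f) (p a) (p b) := by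
  simp only [frl, Sat, sat_ex, sat_imp, Fin.cons_zero, Fin.cons_succ, Rl]
  refine and_congr Iff.rfl (exists_congr fun q => ⟨fun ⟨hq, h1, h2, t, _, h3⟩ =>
    ⟨h1, fun s hs => h2 s (hD _ _ hq hs) hs, t, h3⟩, fun ⟨h1, h2, t, h3⟩ =>
    ⟨hD _ _ hf h1, h1, fun s _ => h2 s, t, hD _ _ (hD _ _ hf h1) h3.1, h3⟩⟩)

theorem sat_in3 (hD : ∀ x y, D x → E y x → D y) {n : ℕ} (x a : Fin n) (p : Fin n → M)
    (hx : D (p x)) : Sat E U D (fin3 x a) p ↔ In3 E (p x) (p a) := by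
  simp only [fin3, Sat, sat_ex, Fin.cons_zero, Fin.cons_succ, In3]
  exact exists_congr fun q => ⟨fun ⟨_, h1, s, _, h3⟩ => ⟨h1, s, h3⟩, fun ⟨h1, s, h3⟩ =>
    ⟨hD _ _ hx h1, h1, s, hD _ _ (hD _ _ hx h1) h3.1, h3⟩⟩

theorem Rl.in_left {f a b : M} (h : Rl E f a b) : In3 E f a :=
  let ⟨_, q, h1, _, t, h3⟩ := h; ⟨q, h1, t, h3⟩

theorem Rl.in_right {f a b : M} (h : Rl E f a b) : In3 E f b :=
  let ⟨_, q, h1, h2, t, h3⟩ := h; ⟨q, h1, t, h3.1, h2 t h3.1⟩

theorem In3.dom (hD : ∀ x y, D x → E y x → D y) {x a : M} (hx : D x) (h : In3 E x a) : D a :=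
  let ⟨_, h1, _, h2, h3⟩ := h; hD _ _ (hD _ _ (hD _ _ hx h1) h2) h3

theorem sat_phi (hD : ∀ x y, D x → E y x → D y) (p : Fin 1 → M) :
    Sat E U D phi p ↔ ∀ x, D x → ∃ f, D f ∧ (∀ a, U a → In3 E x a → ∃ b, U b ∧ Rl E f a b) ∧
      ∀ a a' b, Rl E f a b → Rl E f a' b → a = a' := by
  simp only [phi, Sat, sat_ex, sat_imp]
  refine forall_congr' fun x => forall_congr' fun hx => exists_congr fun f =>
    and_congr_right fun hf => and_congr ⟨fun h a ha h1 => ?_, fun h a _ ha h1 => ?_⟩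
      ⟨fun h a a' b h1 h2 => ?_, fun h a _ a' _ b _ h1 h2 => ?_⟩
  · obtain ⟨b, -, hb, h2⟩ := h a (h1.dom hD hx) ha ((sat_in3 hD _ _ _ hx).2 h1)
    exact ⟨b, hb, (sat_rl hD _ _ _ _ hf).1 h2⟩
  · obtain ⟨b, hb, h2⟩ := h a ha ((sat_in3 hD _ _ _ hx).1 h1)
    exact ⟨b, h2.in_right.dom hD hf, hb, (sat_rl hD _ _ _ _ hf).2 h2⟩
  · exact h a (h1.in_left.dom hD hf) a' (h2.in_left.dom hD hf) b (h1.in_right.dom hD hf)
      ((sat_rl hD _ _ _ _ hf).2 h1) ((sat_rl hD _ _ _ _ hf).2 h2)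
  · exact h a a' b ((sat_rl hD _ _ _ _ hf).1 h1) ((sat_rl hD _ _ _ _ hf).1 h2)

theorem rl_aut (e : Perm M) (hE : ∀ x y, E (e x) (e y) ↔ E x y) {f a b : M} (h : Rl E f a b) :
    Rl E (e f) (e a) (e b) := by
  obtain ⟨h0, q, h1, h2, t, h3, h4⟩ := h
  refine ⟨e.injective.ne h0, e q, (hE _ _).2 h1, fun s hs => ?_, e t, (hE _ _).2 h3,
    (hE _ _).2 h4⟩
  obtain ⟨s, rfl⟩ := e.surjective s
  exact (hE _ _).2 (h2 s ((hE _ _).1 hs))

end Generic

theorem Frame.rl_app {A : Type (u + 1)} {F : Frame A} {f d a b : F.M} (hf : Fn F.E F.U f d) :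
    Rl F.E f a b ↔ a ≠ b ∧ App F.E f b a := by
  refine and_congr_right fun hab => exists_congr fun q => and_congr_right fun hq => ?_
  constructor
  · rintro ⟨h1, t, h2, h3⟩
    obtain ⟨b', a', -, hp⟩ := hf.2.1 q hq
    obtain ⟨s, -, hs⟩ := Frame.pairM b' b'
    obtain rfl : b = b' :=
      ((hs b).1 (h1 s ((hp s).2 (Or.inl fun y => by rw [hs, or_self])))).elim id id
    rcases (hp t).1 h2 with h | h
    · exact (hab ((h a).1 h3)).elim
    · rwa [((h a).1 h3).resolve_left hab]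
  · intro hp
    obtain ⟨t, -, ht⟩ := Frame.pairM b a
    refine ⟨fun s hs => ?_, t, (hp t).2 (Or.inr ht), (ht a).2 (Or.inr rfl)⟩
    exact ((hp s).1 hs).elim (fun h => (h b).2 rfl) fun h => (h b).2 (Or.inl rfl)

theorem Good.transGen {S : Set Nd.{u}} (hS : Good S) {s : Nd.{u}} :
    ∀ s', s' ∈ S → s <:+ s' → s ≠ s' → Relation.TransGen (Ch S) s' s
  | [], _, h, h' => (h' (List.suffix_nil.1 h)).elim
  | l :: s', h0, h, h' => by
    have h1 := (List.suffix_cons_iff.1 h).resolve_left h'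
    by_cases h2 : s = s'
    · exact .single ⟨h0, l, h2 ▸ rfl⟩
    · exact .head ⟨h0, l, rfl⟩ (hS.transGen s' (hS.down _ _ h0) h1 h2)

variable {I : Type u} {D : Idl I}

theorem fix_mem {F : Set (At I)} (hF : F ∈ D.S) : Fix F ∈ (frame D).H := ⟨F, hF, rfl⟩

theorem supp (x : (frame D).M) : ∃ F ∈ D.S, ∀ g ∈ Fix F, g • x.1 = x.1 := by
  obtain ⟨_, ⟨F, hF, rfl⟩, h⟩ := x.2.sym
  exact ⟨F, hF, h⟩

theorem ind_of_fix {F : Set (At I)} {g : Perm (At I)} (hg : g ∈ Fix F) :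
    ∃ e, (frame D).Ind g e := (Frame.pres_of_G (F := frame D) (Fix_sub hg)).ind

variable (D) in
/-- The urelement of the model given by an atom. -/
def atM (a : At I) : (frame D).M :=
  ⟨atom a, .intro _ ⟨_, fix_mem (D.single a), fun g hg => by rw [smul_atom, hg.2.2 a rfl]⟩
    fun y hy => (not_mem_atom y a hy).elim,
    _, good_suffixes (nd a), fun b hb => by rw [ker_atom hb]; exact List.suffix_refl _⟩

theorem atM_inj {a b : At I} (h : atM D a = atM D b) : a = b := atom_inj (congrArg Subtype.val h)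

theorem U_atM (a : At I) : (frame D).U (atM D a) := ⟨a, rfl⟩

theorem U_elim {x : (frame D).M} (h : (frame D).U x) : ∃ a, x = atM D a :=
  h.imp fun _ h => Subtype.ext h

theorem ind_atM {g : Perm (At I)} {e : Perm (frame D).M} (he : (frame D).Ind g e) (a : At I) :
    e (atM D a) = atM D (g a) := Subtype.ext (he _)

theorem atomsM {S : Set Nd.{u}} (hS : Good S) :
    ∃ y : (frame D).M, ∀ z, (frame D).E z y ↔ ∃ a, nd a ∈ S ∧ atM D a = z := by
  have := small_over (I := I) hS.small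
  refine (Frame.mkM (F := frame D) (atM D '' {a | nd a ∈ S}) (small_image _ _)
    (K := {a | nd a ∈ S}) ⟨S, hS, fun _ h => h⟩ ?_ (fix_mem D.empty) ?_).imp fun y hy => hy.2
  · rintro _ ⟨a, ha, rfl⟩ b hb
    rwa [ker_atom hb]
  · intro g hg e he y
    constructor
    · rintro ⟨a, ha, h⟩
      obtain ⟨a, rfl⟩ := g.surjective a
      exact ⟨a, (hg.2.1 a ▸ ha : nd a ∈ S), e.injective ((ind_atM he a).trans h)⟩
    · rintro ⟨a, ha, rfl⟩
      exact ⟨g a, ((hg.2.1 a).symm ▸ ha : nd (g a) ∈ S), (ind_atM he a).symm⟩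

/-- The parent map over a tree. -/
theorem stepM {S : Set Nd.{u}} (hS : Good S) : ∃ f : (frame D).M,
    (∀ a, nd a ∈ S → Rl (frame D).E f (atM D a) (atM D ((0, 0) :: a.1, a.2))) ∧
      ∀ a a' b, Rl (frame D).E f a b → Rl (frame D).E f a' b → a = a' := by
  classical
  have hT := hS.grow {0} inferInstance
  obtain ⟨y, hy⟩ := atomsM (D := D) hT
  let p : (frame D).M → (frame D).M := fun z =>
    if h : (frame D).U z then atM D (par (U_elim h).choose) else z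
  have hp : ∀ a, p (atM D a) = atM D (par a) := fun a => by
    simp only [p, dif_pos (U_atM a)]
    rw [← atM_inj (U_elim (U_atM a)).choose_spec]
  obtain ⟨f, hf, ha⟩ := Frame.mkFun y p (K := {a | nd a ∈ S ∪ Set.image2 List.cons {0} S})
    ⟨_, hT, fun _ h => h⟩ (fun z hz c hc => by
      obtain ⟨a, ha, rfl⟩ := (hy z).1 hz
      rw [hp] at hc
      rw [ker_atom hc]
      exact hT.suffix ((List.tail_suffix _).map _) ha) (fix_mem D.empty)
    fun g hg e he z hz => by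
      obtain ⟨a, -, rfl⟩ := (hy z).1 hz
      rw [ind_atM he, hp, hp, ind_atM he, hg.1]
  refine ⟨f, fun a h => (Frame.rl_app hf).2 ⟨fun e => ?_, (ha _ _).2
    ⟨(hy _).2 ⟨_, Or.inr ⟨0, rfl, _, h, rfl⟩, rfl⟩, (hp ((0, 0) :: a.1, a.2)).symm⟩⟩, fun a a' b h h' => ?_⟩
  · exact List.cons_ne_self _ _ (congrArg Prod.fst (atM_inj e)).symm
  · rw [((ha _ _).1 ((Frame.rl_app hf).1 h).2).2, ((ha _ _).1 ((Frame.rl_app hf).1 h').2).2]

theorem phi_true (p : Fin 1 → (frame D).M) :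
    Sat (frame D).E (frame D).U (fun _ => True) phi p := by
  refine (sat_phi (fun _ _ _ _ => trivial) p).2 fun x _ => ?_
  obtain ⟨S, hS, hK⟩ := x.2.2
  obtain ⟨f, h1, h2⟩ := stepM (D := D) hS
  refine ⟨f, trivial, fun a ha ⟨q, h3, s, h4, h5⟩ => ?_, h2⟩
  obtain ⟨a, rfl⟩ := U_elim ha
  exact ⟨_, U_atM _, h1 a (hK a (Ker.mem h3 (Ker.mem h4 (Ker.mem h5 Ker.atom))))⟩

theorem not_rpm (D : Idl I) : ¬ RPm (frame D).E (frame D).U := by
  intro h
  obtain ⟨x0, h0, -⟩ := stepM (D := D) good_root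
  obtain ⟨t, -, htr, hx0, hsat⟩ := h 1 phi (fun _ => x0) (phi_true _)
  choose nx hnt hn1 hn2 using (sat_phi htr _).1 hsat
  let sq : ℕ → {x // (frame D).E x t} := fun n =>
    Nat.rec ⟨x0, hx0 0⟩ (fun _ x => ⟨nx x.1 x.2, hnt x.1 x.2⟩) n
  choose F hF hfix using fun n => supp (sq n).1
  obtain ⟨i, hi⟩ := D.avoid F hF
  obtain ⟨S, hS, hK⟩ := t.2.2
  have key : ∀ s n (a : At I), nd a = s → a.2 = i → a.1 ≠ [] →
      ¬ In3 (frame D).E (sq n).1 (atM D a) := fun s => by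
    induction s using hS.wf.transGen.induction with | _ s ih => ?_
    rintro n a rfl h1 h2 h3
    obtain ⟨b, hb, hr⟩ := hn1 _ (sq n).2 _ (U_atM a) h3
    obtain ⟨b, rfl⟩ := U_elim hb
    have h4 : a.2 = b.2 ∧ a.1 <:+ b.1 := by
      by_contra hn
      obtain ⟨g, hg, hga⟩ := move a b h2 hn
      obtain ⟨e, he⟩ := ind_of_fix (D := D) hg
      have hf : e (sq (n + 1)).1 = (sq (n + 1)).1 := he.fix (hfix (n + 1) g
        (Fix_mono (fun c hc => by
        by_cases hc' : c.2 = a.2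
        · exact Or.inr (Or.inl (hi _ c hc (hc'.trans h1)))
        · exact Or.inl hc') hg))
      have hr' := rl_aut e he.hE (f := (sq (n + 1)).1) hr
      rw [hf, ind_atM he, ind_atM he, hg.2.2 b (Or.inr (Or.inr rfl))] at hr'
      exact hga (atM_inj (hn2 _ (sq n).2 _ _ _ hr' hr))
    have h5 : nd b ∈ S := hK b (Ker.mem (hr.in_right.dom htr (hnt _ (sq n).2)) Ker.atom)
    refine ih (nd b) (hS.transGen _ h5 (h4.2.map _) fun e => hr.1 ?_) (n + 1) b rfl
      (h4.1 ▸ h1) (fun e => h2 (List.suffix_nil.1 (e ▸ h4.2))) hr.in_right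
    have h6 := congrArg List.length e
    simp only [nd, List.length_map] at h6
    rw [Prod.ext (h4.2.eq_of_length h6) h4.1]
  exact key _ 0 ([(0, 0)], i) rfl rfl (List.cons_ne_nil _ _) (h0 ([], i) rfl).in_right

end Pool.Agent.P.MP_4a6a31_lc
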