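import Pool.Agent.P.MP_4a6a31_lc.Univ

/-! Small-kernel permutation models: ZFU with Replacement and Collection. -/

namespace Pool.Agent.P.MP_4a6a31_lc

universe u v

open Equiv VV

section Generic

variable {M : Type v} {E : M → M → Prop} {U : M → Prop}

theorem sat_aut (e : Perm M) (hE : ∀ x y, E (e x) (e y) ↔ E x y) (hU : ∀ x, U (e x) ↔ U x)
    {n : ℕ} (φ : Fm n) (p : Fin n → M) :
    Sat E U (fun _ => True) φ (e ∘ p) ↔ Sat E U (fun _ => True) φ p := by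
  induction φ with
  | mem i j => exact hE _ _
  | eq i j => exact e.injective.eq_iff
  | ur i => exact hU _
  | neg φ ih => exact not_congr (ih p)
  | and φ ψ ih ih' => exact and_congr (ih p) (ih' p)
  | all φ ih =>
    simp only [Sat, forall_true_left]
    refine (e.forall_congr fun x => ?_).symm
    rw [← ih (Fin.cons x p), Fin.comp_cons]

theorem pr_aut (e : Perm M) (hE : ∀ x y, E (e x) (e y) ↔ E x y) (q a b : M) :
    Pr E (e q) (e a) (e b) ↔ Pr E q a b := by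
  refine (e.forall_congr fun z => ?_).symm
  rw [hE]
  refine iff_congr Iff.rfl (or_congr (e.forall_congr fun y => ?_) (e.forall_congr fun y => ?_))
  · rw [hE, e.injective.eq_iff]
  · rw [hE, e.injective.eq_iff, e.injective.eq_iff]

theorem app_aut (e : Perm M) (hE : ∀ x y, E (e x) (e y) ↔ E x y) (f a b : M) :
    App E (e f) (e a) (e b) ↔ App E f a b := by
  refine (e.exists_congr fun q => ?_).symm
  rw [hE, pr_aut e hE]

theorem pr_inj (hp : ∀ a b, ∃ s, ∀ z, E z s ↔ z = a ∨ z = b) {q a b a' b' : M}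
    (h : Pr E q a b) (h' : Pr E q a' b') : a = a' ∧ b = b' := by
  obtain ⟨s, hs⟩ := hp a a
  obtain ⟨t, ht⟩ := hp a b
  obtain ⟨t', ht'⟩ := hp a' b'
  have h1 := (h' s).1 ((h s).2 (Or.inl fun y => by rw [hs, or_self]))
  have h2 := (h' t).1 ((h t).2 (Or.inr ht))
  have h3 := (h t').1 ((h' t').2 (Or.inr ht'))
  have ha : a = a' := by
    rcases h1 with h1 | h1
    · exact (h1 a).1 ((hs a).2 (Or.inl rfl))
    · exact (((hs a').1 ((h1 a').2 (Or.inl rfl))).elim id id).symm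
  subst ha
  refine ⟨rfl, ?_⟩
  have hb : b = a ∨ b = b' := by
    rcases h2 with h2 | h2
    · exact Or.inl ((h2 b).1 ((ht b).2 (Or.inr rfl)))
    · exact (h2 b).1 ((ht b).2 (Or.inr rfl))
  have hb' : b' = a ∨ b' = b := by
    rcases h3 with h3 | h3
    · exact Or.inl ((h3 b').1 ((ht' b').2 (Or.inr rfl)))
    · exact (h3 b').1 ((ht' b').2 (Or.inr rfl))
  rcases hb with hb | hb
  · rcases hb' with hb' | hb'
    · rw [hb, hb']
    · exact hb'.symm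
  · exact hb

end Generic

/-- The data of a small-kernel permutation model. -/
structure Frame (A : Type (u + 1)) where
  H : Set (Set (Perm A))
  J : Set (Set A)
  G : Set (Perm A)
  H_ne : H.Nonempty
  H_dir : ∀ h ∈ H, ∀ h' ∈ H, ∃ k ∈ H, k ⊆ h ∧ k ⊆ h'
  H_sub : ∀ h ∈ H, h ⊆ G
  G_inv : ∀ g ∈ G, g⁻¹ ∈ G
  G_conj : ∀ g ∈ G, ∀ h ∈ H, ∃ h' ∈ H, ∀ k ∈ h', g⁻¹ * k * g ∈ h
  G_J : ∀ g ∈ G, ∀ K ∈ J, g '' K ∈ J
  J_empty : ∅ ∈ J
  J_mono : ∀ K ∈ J, ∀ K', K' ⊆ K → K' ∈ J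
  J_union : ∀ K ∈ J, ∀ K' ∈ J, K ∪ K' ∈ J
  J_small : ∀ K ∈ J, Small.{u} K
  J_sym : ∀ K ∈ J, ∃ K' ∈ J, K ⊆ K' ∧ ∃ h ∈ H, ∀ g ∈ h, ∀ a, g a ∈ K' ↔ a ∈ K'
  amalg : ∀ K ∈ J, ∀ (ι : Type u) (L : ι → Set A), (∀ x, L x ∈ J) →
    ∃ γ : ι → Perm A, (∀ x, γ x ∈ G) ∧ (∀ x, ∀ a ∈ K, γ x a = a) ∧ (⋃ x, γ x '' L x) ∈ J

namespace Frame

variable {A : Type (u + 1)} (F : Frame A)

/-- Hereditarily symmetric. -/
inductive HS : VV A → Prop
  | intro (x : VV A) : (∃ h ∈ F.H, ∀ g ∈ h, g • x = x) → (∀ y, mem y x → HS y) → HS x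

def InM (x : VV A) : Prop := F.HS x ∧ {a | Ker a x} ∈ F.J

def M : Type (u + 1) := {x : VV A // F.InM x}

def E (x y : F.M) : Prop := mem x.1 y.1

def U (x : F.M) : Prop := IsAt x.1

def Pres (g : Perm A) : Prop := ∀ x, F.InM (g • x) ↔ F.InM x

/-- `e` is the automorphism of the model induced by `g`. -/
def Ind (g : Perm A) (e : Perm F.M) : Prop := ∀ x, (e x).1 = g • x.1

variable {F}

theorem InM.of_mem {x y : VV A} (hx : F.InM x) (h : mem y x) : F.InM y := by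
  obtain ⟨⟨_, _, h1⟩, h2⟩ := hx
  exact ⟨h1 y h, F.J_mono _ h2 _ fun a ha => Ker.mem h ha⟩

theorem InM.sym {x : VV A} (hx : F.InM x) : ∃ h ∈ F.H, ∀ g ∈ h, g • x = x := by
  obtain ⟨⟨_, h1, _⟩, _⟩ := hx
  exact h1

theorem InM.smul {g : Perm A} (hg : g ∈ F.G) {x : VV A} (hx : F.InM x) : F.InM (g • x) := by
  refine ⟨?_, F.J_mono _ (F.G_J g hg _ hx.2) _ fun a ha => ⟨g⁻¹ a, ker_smul' g ha, by simp⟩⟩
  have h1 := hx.1
  clear hx
  induction h1 with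
  | intro x hs _ ih =>
    refine HS.intro _ ?_ fun y hy => ?_
    · obtain ⟨h, hh, hs⟩ := hs
      obtain ⟨h', hh', hc⟩ := F.G_conj g hg h hh
      refine ⟨h', hh', fun k hk => ?_⟩
      have := hs _ (hc k hk)
      rw [mul_smul, mul_smul, inv_smul_eq_iff] at this
      exact this
    · obtain ⟨z, hz, rfl⟩ := (mem_smul g x y).1 hy
      exact ih z hz

theorem pres_of_G {g : Perm A} (hg : g ∈ F.G) : F.Pres g := fun x =>
  ⟨fun h => by simpa using h.smul (F.G_inv g hg), fun h => h.smul hg⟩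

theorem pres_of_H {h : Set (Perm A)} (hh : h ∈ F.H) {g : Perm A} (hg : g ∈ h) : F.Pres g :=
  pres_of_G (F.H_sub h hh hg)

theorem Pres.mul {g g' : Perm A} (h : F.Pres g) (h' : F.Pres g') : F.Pres (g * g') := fun x => by
  rw [mul_smul, h, h']

theorem Pres.inv {g : Perm A} (h : F.Pres g) : F.Pres g⁻¹ := fun x => by
  rw [← h, smul_inv_smul]

theorem Pres.ind {g : Perm A} (h : F.Pres g) : ∃ e, F.Ind g e :=
  ⟨⟨fun x => ⟨g • x.1, (h _).2 x.2⟩, fun x => ⟨g⁻¹ • x.1, (h.inv _).2 x.2⟩,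
    fun x => Subtype.ext (inv_smul_smul g x.1), fun x => Subtype.ext (smul_inv_smul g x.1)⟩,
    fun _ => rfl⟩

theorem Ind.hE {g : Perm A} {e : Perm F.M} (h : F.Ind g e) (x y : F.M) :
    F.E (e x) (e y) ↔ F.E x y := by
  unfold E
  rw [h, h, smul_mem_smul]

theorem Ind.hU {g : Perm A} {e : Perm F.M} (h : F.Ind g e) (x : F.M) : F.U (e x) ↔ F.U x := by
  unfold U
  rw [h, isAt_smul]

theorem Ind.fix {g : Perm A} {e : Perm F.M} (h : F.Ind g e) {x : F.M} (hx : g • x.1 = x.1) :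
    e x = x := Subtype.ext ((h x).trans hx)

theorem wfE : WellFounded F.E := InvImage.wf (fun x : F.M => x.1) VV.wf

theorem extE {x y : F.M} (hx : ¬ F.U x) (hy : ¬ F.U y) (h : ∀ z, F.E z x ↔ F.E z y) : x = y :=
  Subtype.ext (VV.ext hx hy fun z =>
    ⟨fun hz => (h ⟨z, x.2.of_mem hz⟩).1 hz, fun hz => (h ⟨z, y.2.of_mem hz⟩).2 hz⟩)

theorem urE {a x : F.M} (h : F.U a) : ¬ F.E x a := not_mem_of_isAt h

theorem smallE (x : F.M) : Small.{u} {y | F.E y x} := by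
  have := small_mem x.1
  exact small_of_injective (β := {y | mem y x.1}) (f := fun y => ⟨y.1.1, y.2⟩)
    fun y y' h => Subtype.ext (Subtype.ext (congrArg (fun z : {y | mem y x.1} => z.1) h))

theorem kerE {a : A} {x : F.M} (hx : ¬ F.U x) (h : Ker a x.1) : ∃ y, F.E y x ∧ Ker a y.1 := by
  obtain ⟨y, hy, hk⟩ := ker_set hx h
  exact ⟨⟨y, x.2.of_mem hy⟩, hy, hk⟩

/-- The master existence lemma. -/
theorem mkM (S : Set F.M) (hS : Small.{u} S) {K : Set A} (hK : K ∈ F.J)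
    (hker : ∀ y ∈ S, ∀ a, Ker a y.1 → a ∈ K) {h : Set (Perm A)} (hh : h ∈ F.H)
    (hinv : ∀ g ∈ h, ∀ e, F.Ind g e → ∀ y, e y ∈ S ↔ y ∈ S) :
    ∃ x : F.M, ¬ F.U x ∧ ∀ y, F.E y x ↔ y ∈ S := by
  obtain ⟨x, hx, hm⟩ := exists_set ((fun y : F.M => y.1) '' S)
    (@small_image _ _ (fun y : F.M => y.1) S hS)
  have hm' : ∀ y : F.M, mem y.1 x ↔ y ∈ S := fun y => by
    rw [hm]
    exact Subtype.val_injective.mem_set_image
  have hM : ∀ y, mem y x → F.InM y := fun y hy => by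
    obtain ⟨z, _, rfl⟩ := (hm y).1 hy
    exact z.2
  refine ⟨⟨x, HS.intro _ ⟨h, hh, fun g hg => ?_⟩ fun y hy => (hM y hy).1,
    F.J_mono _ hK _ fun a ha => ?_⟩, hx, hm'⟩
  · obtain ⟨e, he⟩ := (pres_of_H hh hg).ind
    refine smul_eq_of hx fun y => ⟨fun hy => ?_, fun hy => ?_⟩
    · have h1 : F.InM y := (pres_of_H hh hg y).1 (hM _ hy)
      refine (hm' ⟨y, h1⟩).2 ((hinv g hg e he _).1 ((hm' _).1 ?_))
      rw [he]
      exact hy
    · have := (hm' _).2 ((hinv g hg e he ⟨y, hM y hy⟩).2 ((hm' ⟨y, hM y hy⟩).1 hy))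
      rwa [he] at this
  · obtain ⟨y, hy, hk⟩ := ker_set hx ha
    exact hker ⟨y, hM y hy⟩ ((hm' _).1 hy) a hk

theorem supp_fin {n : ℕ} (p : Fin n → F.M) :
    ∃ h ∈ F.H, ∀ g ∈ h, ∀ i, g • (p i).1 = (p i).1 := by
  induction n with
  | zero =>
    obtain ⟨h, hh⟩ := F.H_ne
    exact ⟨h, hh, fun _ _ i => i.elim0⟩
  | succ n ih =>
    obtain ⟨h, hh, h1⟩ := ih fun i => p i.succ
    obtain ⟨h', hh', h2⟩ := (p 0).2.sym
    obtain ⟨k, hk, h3, h4⟩ := F.H_dir h hh h' hh'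
    exact ⟨k, hk, fun g hg => Fin.forall_fin_succ.2 ⟨h2 g (h4 hg), h1 g (h3 hg)⟩⟩

theorem ker_fin {n : ℕ} (p : Fin n → F.M) : ∃ K ∈ F.J, ∀ i a, Ker a (p i).1 → a ∈ K := by
  induction n with
  | zero => exact ⟨∅, F.J_empty, fun i => i.elim0⟩
  | succ n ih =>
    obtain ⟨K, hK, h1⟩ := ih fun i => p i.succ
    exact ⟨_, F.J_union _ hK _ (p 0).2.2,
      Fin.forall_fin_succ.2 ⟨fun a ha => Or.inr ha, fun i a ha => Or.inl (h1 i a ha)⟩⟩

theorem supp_two (a b : F.M) : ∃ h ∈ F.H, ∀ g ∈ h, g • a.1 = a.1 ∧ g • b.1 = b.1 := by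
  obtain ⟨h, hh, h1⟩ := supp_fin ![a, b]
  exact ⟨h, hh, fun g hg => ⟨h1 g hg 0, h1 g hg 1⟩⟩

/-- Separation for invariant predicates. -/
theorem sepM (w : F.M) (P : F.M → Prop) {h : Set (Perm A)} (hh : h ∈ F.H)
    (hinv : ∀ g ∈ h, ∀ e, F.Ind g e → ∀ y, P (e y) ↔ P y) :
    ∃ s : F.M, ¬ F.U s ∧ ∀ z, F.E z s ↔ F.E z w ∧ P z := by
  obtain ⟨h', hh', h1⟩ := w.2.sym
  obtain ⟨k, hk, h3, h4⟩ := F.H_dir h hh h' hh'
  have := smallE w
  refine mkM {z | F.E z w ∧ P z} (small_subset (s := {y | F.E y w}) fun _ hz => hz.1) w.2.2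
    (fun y hy a ha => Ker.mem hy.1 ha) hk fun g hg e he y => and_congr ?_ (hinv g (h3 hg) e he y)
  rw [← he.hE y w, he.fix (h1 g (h4 hg))]

theorem pairM (a b : F.M) : ∃ s : F.M, ¬ F.U s ∧ ∀ z, F.E z s ↔ z = a ∨ z = b := by
  obtain ⟨h, hh, h1⟩ := supp_two a b
  refine mkM {a, b} (small_pair a b) (F.J_union _ a.2.2 _ b.2.2) ?_ hh fun g hg e he y => ?_
  · rintro y (rfl | rfl) c hc
    · exact Or.inl hc
    · exact Or.inr hc
  · have ha := he.fix (h1 g hg).1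
    have hb := he.fix (h1 g hg).2
    simp only [Set.mem_insert_iff, Set.mem_singleton_iff]
    rw [← e.injective.eq_iff (a := y) (b := a), ← e.injective.eq_iff (a := y) (b := b), ha, hb]

theorem unionM (x : F.M) : ∃ s : F.M, ¬ F.U s ∧ ∀ z, F.E z s ↔ ∃ y, F.E y x ∧ F.E z y := by
  obtain ⟨h, hh, h1⟩ := x.2.sym
  refine mkM {z | ∃ y, F.E y x ∧ F.E z y} ?_ x.2.2 ?_ hh fun g hg e he y => ?_
  · have := smallE x
    have h2 : ∀ y : {y | F.E y x}, Small.{u} {z | F.E z y.1} := fun y => smallE _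
    refine small_subset (s := ⋃ y : {y | F.E y x}, {z | F.E z y.1}) ?_
    rintro z ⟨y, hy, hz⟩
    exact Set.mem_iUnion.2 ⟨⟨y, hy⟩, hz⟩
  · rintro z ⟨y, hy, hz⟩ a ha
    exact Ker.mem hy (Ker.mem hz ha)
  · refine (e.exists_congr fun z => ?_).symm
    rw [he.hE, ← he.hE z x, he.fix (h1 g hg)]

theorem powerM (x : F.M) :
    ∃ s : F.M, ¬ F.U s ∧ ∀ z, F.E z s ↔ ¬ F.U z ∧ ∀ y, F.E y z → F.E y x := by
  obtain ⟨h, hh, h1⟩ := x.2.sym
  refine mkM {z | ¬ F.U z ∧ ∀ y, F.E y z → F.E y x} ?_ x.2.2 ?_ hh fun g hg e he y => ?_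
  · have := smallE x
    refine small_of_injective (β := Set {y | F.E y x}) (f := fun z => {y | F.E y.1 z.1})
      fun z z' hz => Subtype.ext (extE z.2.1 z'.2.1 fun y => ⟨fun hy => ?_, fun hy => ?_⟩)
    · exact (Set.ext_iff.1 hz ⟨y, z.2.2 y hy⟩).1 hy
    · exact (Set.ext_iff.1 hz ⟨y, z'.2.2 y hy⟩).2 hy
  · rintro z ⟨hz, hs⟩ a ha
    obtain ⟨y, hy, hk⟩ := kerE hz ha
    exact Ker.mem (hs y hy) hk
  · refine and_congr (not_congr (he.hU y)) (e.forall_congr fun z => ?_).symm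
    rw [he.hE, ← he.hE z x, he.fix (h1 g hg)]

theorem sat_fix {g : Perm A} {e : Perm F.M} (he : F.Ind g e) {n : ℕ} (φ : Fm (n + 1))
    {p : Fin n → F.M} (hp : ∀ i, g • (p i).1 = (p i).1) (y : F.M) :
    Sat F.E F.U (fun _ => True) φ (Fin.cons (e y) p) ↔
      Sat F.E F.U (fun _ => True) φ (Fin.cons y p) := by
  rw [← sat_aut e he.hE he.hU φ (Fin.cons y p), Fin.comp_cons]
  have : e ∘ p = p := funext fun i => he.fix (hp i)
  rw [this]

/-- Every small family with a common kernel bound lies in a set of the model. -/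
theorem hullM (ι : Type u) (y : ι → F.M) {K : Set A} (hK : K ∈ F.J)
    (hker : ∀ i a, Ker a (y i).1 → a ∈ K) : ∃ s : F.M, ¬ F.U s ∧ ∀ i, F.E (y i) s := by
  classical
  obtain ⟨K', hK', hsub, h, hh, hst⟩ := F.J_sym K hK
  let S : Set F.M := {z | ∃ g : Perm A, F.Pres g ∧ (∀ a, g a ∈ K' ↔ a ∈ K') ∧
    ∃ i, z.1 = g • (y i).1}
  have hcl : ∀ g : Perm A, F.Pres g → (∀ a, g a ∈ K' ↔ a ∈ K') → ∀ z z' : F.M,
      z'.1 = g • z.1 → z ∈ S → z' ∈ S := by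
    rintro g hg hgK z z' hz ⟨g', hg', hgK', i, hi⟩
    exact ⟨g * g', hg.mul hg', fun a => (hgK _).trans (hgK' a), i, by rw [hz, hi, mul_smul]⟩
  refine (mkM S ?_ hK' ?_ hh ?_).imp fun s hs => ⟨hs.1, fun i => (hs.2 _).2
    ⟨1, fun x => by rw [one_smul], fun _ => Iff.rfl, i, (one_smul _ _).symm⟩⟩
  · have := F.J_small K' hK'
    have hc : ∀ z : S, ∃ (g : Perm A) (i : ι), (∀ a, g a ∈ K' ↔ a ∈ K') ∧
        z.1.1 = g • (y i).1 := fun ⟨_, g, _, h1, i, h2⟩ => ⟨g, i, h1, h2⟩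
    choose g i h1 h2 using hc
    refine small_of_injective (β := ι × (K' → K'))
      (f := fun z => (i z, fun a => ⟨g z a, (h1 z a).2 a.2⟩)) fun z z' hz => ?_
    have e1 : i z = i z' := congrArg Prod.fst hz
    have e2 := congrArg Prod.snd hz
    refine Subtype.ext (Subtype.ext ?_)
    rw [h2, h2, ← e1]
    exact smul_agree _ fun a ha =>
      congrArg Subtype.val (congrFun e2 ⟨a, hsub (hker _ a ha)⟩)
  · rintro z ⟨g, _, hgK, i, hi⟩ a ha
    rw [hi] at ha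
    have := (hgK _).2 (hsub (hker i _ (ker_smul' g ha)))
    simpa using this
  · intro g hg e he z
    have hp := pres_of_H hh hg
    refine ⟨hcl g⁻¹ hp.inv (fun a => ?_) _ _ (by rw [he, inv_smul_smul]),
      hcl g hp (hst g hg) _ _ (he z)⟩
    rw [← hst g hg]
    simp

theorem coll : Coll F.E F.U := by
  intro n φ p w hw
  have := smallE w
  choose y hy using hw
  let x : Shrink.{u} {x | F.E x w} → {x | F.E x w} := fun i => (equivShrink _).symm i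
  obtain ⟨K, hK, hpK⟩ := ker_fin (Fin.cons w p : Fin (n + 1) → F.M)
  obtain ⟨γ, hγ, hfix, hJ⟩ := F.amalg K hK _ (fun i => {a | Ker a (y (x i).1 (x i).2).1})
    fun i => (y _ _).2.2
  choose e he using fun i => (pres_of_G (hγ i)).ind
  obtain ⟨s, hs, hm⟩ := hullM _ (fun i => e i (y (x i).1 (x i).2)) hJ fun i a ha => by
    rw [he] at ha
    exact Set.mem_iUnion.2 ⟨i, _, ker_smul' _ ha, by simp⟩
  refine ⟨s, hs, fun z hz => ?_⟩
  obtain ⟨i, hi⟩ := (equivShrink {x | F.E x w}).symm.surjective ⟨z, hz⟩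
  have hi' : z = (x i).1 := (congrArg Subtype.val hi).symm
  subst hi'
  refine ⟨_, hm i, (sat_fix (he i) φ ?_ _).2 (hy _ _)⟩
  refine Fin.forall_fin_succ.2 ⟨smul_fix _ fun a ha => hfix i a (hpK 0 a (Ker.mem hz ha)),
    fun j => smul_fix _ fun a ha => hfix i a (hpK j.succ a ha)⟩

theorem pure_inM {x : VV A} (hx : ∀ a, ¬ Ker a x) : F.InM x := by
  refine ⟨?_, F.J_mono _ F.J_empty _ fun a ha => hx a ha⟩
  induction x using VV.wf.induction with | _ x ih => ?_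
  obtain ⟨h, hh⟩ := F.H_ne
  exact HS.intro _ ⟨h, hh, fun g _ => smul_fix _ fun a ha => (hx a ha).elim⟩
    fun y hy => ih y hy fun a ha => hx a (Ker.mem hy ha)

/-- Von Neumann ordinals of any small order type. -/
theorem ordM (ι : Type u) [LinearOrder ι] [WellFoundedLT ι] :
    ∃ (o : ι → F.M) (k : F.M), ¬ F.U k ∧ (∀ y, F.E y k ↔ ∃ i, y = o i) ∧ (∀ i, ¬ F.U (o i)) ∧
      ∀ i y, F.E y (o i) ↔ ∃ j < i, y = o j := by
  let o : ι → VV A := WellFounded.fix wellFounded_lt fun i rec =>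
    Classical.choose (exists_set (Set.range fun j : {j // j < i} => rec j.1 j.2) (small_range _))
  have ho : ∀ i, ¬ IsAt (o i) ∧ ∀ y, mem y (o i) ↔ ∃ j < i, y = o j := fun i => by
    have := Classical.choose_spec
      (exists_set (Set.range fun j : {j // j < i} => o j.1) (small_range _))
    have e : o i = Classical.choose
        (exists_set (Set.range fun j : {j // j < i} => o j.1) (small_range _)) :=
      WellFounded.fix_eq _ _ _
    rw [← e] at this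
    refine ⟨this.1, fun y => (this.2 y).trans ?_⟩
    exact ⟨fun ⟨j, hj⟩ => ⟨j.1, j.2, hj.symm⟩, fun ⟨j, h1, h2⟩ => ⟨⟨j, h1⟩, h2.symm⟩⟩
  have hp : ∀ i a, ¬ Ker a (o i) := fun i => by
    induction i using WellFoundedLT.induction with | _ i ih => ?_
    intro a ha
    obtain ⟨y, hy, hk⟩ := ker_set (ho i).1 ha
    obtain ⟨j, hj, rfl⟩ := ((ho i).2 y).1 hy
    exact ih j hj a hk
  obtain ⟨k, hk, hm⟩ := exists_set (Set.range o) (small_range _)
  refine ⟨fun i => ⟨o i, pure_inM (hp i)⟩, ⟨k, pure_inM fun a ha => ?_⟩, hk, fun y => ?_,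
    fun i => (ho i).1, fun i y => ?_⟩
  · obtain ⟨y, hy, hk⟩ := ker_set hk ha
    obtain ⟨j, rfl⟩ := (hm y).1 hy
    exact hp j a hk
  · exact (hm y.1).trans ⟨fun ⟨i, hi⟩ => ⟨i, Subtype.ext hi.symm⟩,
      fun ⟨i, hi⟩ => ⟨i, (congrArg Subtype.val hi).symm⟩⟩
  · exact ((ho i).2 y.1).trans ⟨fun ⟨j, h1, h2⟩ => ⟨j, h1, Subtype.ext h2⟩,
      fun ⟨j, h1, h2⟩ => ⟨j, h1, congrArg Subtype.val h2⟩⟩

theorem sepF (n : ℕ) (φ : Fm (n + 1)) (p : Fin n → F.M) (w : F.M) : ∃ s, ¬ F.U s ∧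
    ∀ z, F.E z s ↔ F.E z w ∧ Sat F.E F.U (fun _ => True) φ (Fin.cons z p) := by
  obtain ⟨h, hh, h1⟩ := supp_fin p
  exact sepM w _ hh fun g hg e he y => sat_fix he φ (h1 g hg) y

theorem zfur : ZFUR F.E F.U where
  ur_empty _ _ := urE
  ext _ _ := extE
  found x := fun ⟨z, hz⟩ => by
    obtain ⟨m, hm, h⟩ := wfE.has_min {y | F.E y x} ⟨z, hz⟩
    exact ⟨m, hm, fun y hy hy' => h y hy' hy⟩
  pair := pairM
  union := unionM
  power := powerM
  inf := by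
    obtain ⟨o, k, _, hk, ho, hm⟩ := ordM (F := F) (ULift.{u} ℕ)
    refine ⟨k, ⟨o ⟨0⟩, (hk _).2 ⟨_, rfl⟩, ho _, fun z hz => ?_⟩, fun y hy => ?_⟩
    · obtain ⟨⟨j⟩, hj, _⟩ := (hm _ _).1 hz
      exact Nat.not_lt_zero j hj
    · obtain ⟨⟨i⟩, rfl⟩ := (hk _).1 hy
      refine ⟨o ⟨i + 1⟩, (hk _).2 ⟨_, rfl⟩, ho _, fun z => ?_⟩
      rw [hm, hm]
      constructor
      · rintro ⟨⟨j⟩, hj, rfl⟩
        rcases Nat.lt_succ_iff_lt_or_eq.1 hj with h | h
        · exact Or.inl ⟨⟨j⟩, h, rfl⟩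
        · exact Or.inr (congrArg (fun n => o ⟨n⟩) h)
      · rintro (⟨⟨j⟩, hj, rfl⟩ | rfl)
        · exact ⟨⟨j⟩, Nat.lt_succ_of_lt hj, rfl⟩
        · exact ⟨⟨i⟩, Nat.lt_succ_self i, rfl⟩
  sep := sepF
  repl n φ p w hw := by
    obtain ⟨s, _, hs⟩ := coll n φ p w fun x hx => (hw x hx).exists
    obtain ⟨h, hh, h1⟩ := supp_fin (Fin.cons w p : Fin (n + 1) → F.M)
    obtain ⟨t, ht, hm⟩ := sepM s (fun y => ∃ x, F.E x w ∧
      Sat F.E F.U (fun _ => True) φ (Fin.cons y (Fin.cons x p))) hh fun g hg e he y => by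
        refine (e.exists_congr fun x => ?_).symm
        have hp : e ∘ p = p := funext fun i => he.fix (h1 g hg i.succ)
        rw [← he.hE x w, he.fix (x := w) (h1 g hg 0),
          ← sat_aut e he.hE he.hU φ (Fin.cons y (Fin.cons x p)), Fin.comp_cons, Fin.comp_cons, hp]
    refine ⟨t, ht, fun y => (hm y).trans ⟨fun h => h.2, fun ⟨x, hx, hy⟩ => ⟨?_, x, hx, hy⟩⟩⟩
    obtain ⟨y', hy', h2⟩ := hs x hx
    rwa [(hw x hx).unique hy h2]

/-- The kernel of a Kuratowski pair. -/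
theorem prM (a b : F.M) : ∃ q : F.M, Pr F.E q a b ∧ ∀ c, Ker c q.1 → Ker c a.1 ∨ Ker c b.1 := by
  obtain ⟨s, hs, hs'⟩ := pairM a a
  obtain ⟨t, ht, ht'⟩ := pairM a b
  obtain ⟨q, hq, hq'⟩ := pairM s t
  refine ⟨q, fun z => (hq' z).trans (or_congr ?_ ?_), fun c hc => ?_⟩
  · refine ⟨fun h y => by rw [h, hs', or_self], fun h => extE (fun hz => urE hz ((h a).2 rfl)) hs
      fun y => by rw [h, hs', or_self]⟩
  · exact ⟨fun h y => by rw [h, ht'], fun h => extE (fun hz => urE hz ((h a).2 (Or.inl rfl))) ht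
      fun y => by rw [h, ht']⟩
  · obtain ⟨y, hy, hk⟩ := kerE hq hc
    rcases (hq' y).1 hy with rfl | rfl
    · obtain ⟨z, hz, hk⟩ := kerE hs hk
      rcases (hs' z).1 hz with rfl | rfl <;> exact Or.inl hk
    · obtain ⟨z, hz, hk⟩ := kerE ht hk
      rcases (ht' z).1 hz with rfl | rfl
      · exact Or.inl hk
      · exact Or.inr hk

theorem pr_unique {q q' a b : F.M} (h : Pr F.E q a b) (h' : Pr F.E q' a b) : q = q' := by
  obtain ⟨t, _, ht'⟩ := pairM a b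
  exact extE (fun hq => urE hq ((h t).2 (Or.inr ht'))) (fun hq => urE hq ((h' t).2 (Or.inr ht')))
    fun z => (h z).trans (h' z).symm

theorem prE_inj {q a b a' b' : F.M} (h : Pr F.E q a b) (h' : Pr F.E q a' b') :
    a = a' ∧ b = b' := pr_inj (fun a b => (pairM a b).imp fun _ h => h.2) h h'

theorem ker_app {f a b : F.M} (h : App F.E f a b) {c : A} (hc : Ker c b.1) : Ker c f.1 := by
  obtain ⟨q, hq, hp⟩ := h
  obtain ⟨t, _, ht'⟩ := pairM a b
  exact Ker.mem hq (Ker.mem ((hp t).2 (Or.inr ht')) (Ker.mem ((ht' b).2 (Or.inr rfl)) hc))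

theorem Fn_dom {f d a b : F.M} (hf : Fn F.E F.U f d) (h : App F.E f a b) : F.E a d := by
  obtain ⟨q, hq, hp⟩ := h
  obtain ⟨a', b', ha, hp'⟩ := hf.2.1 q hq
  rwa [(prE_inj hp hp').1]

/-- An equivariant map on the members of a set is a function of the model. -/
theorem mkFun (d : F.M) (f : F.M → F.M) {K : Set A} (hK : K ∈ F.J)
    (hker : ∀ a, F.E a d → ∀ c, Ker c (f a).1 → c ∈ K) {h : Set (Perm A)} (hh : h ∈ F.H)
    (hinv : ∀ g ∈ h, ∀ e, F.Ind g e → ∀ a, F.E a d → f (e a) = e (f a)) :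
    ∃ s, Fn F.E F.U s d ∧ ∀ a b, App F.E s a b ↔ F.E a d ∧ b = f a := by
  choose q hq hqk using prM (F := F)
  obtain ⟨h', hh', h1⟩ := d.2.sym
  obtain ⟨k, hk, h3, h4⟩ := F.H_dir h hh h' hh'
  have := smallE d
  refine (mkM ((fun a => q a (f a)) '' {a | F.E a d}) (small_image _ _)
    (F.J_union _ d.2.2 _ hK) ?_ hk ?_).elim fun s ⟨hs, hm⟩ => ?_
  rotate_right
  · have happ : ∀ a b, App F.E s a b ↔ F.E a d ∧ b = f a := fun a b => by
      constructor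
      · rintro ⟨r, hr, hp⟩
        obtain ⟨a', ha', rfl⟩ := (hm r).1 hr
        obtain ⟨rfl, rfl⟩ := prE_inj hp (hq a' (f a'))
        exact ⟨ha', rfl⟩
      · rintro ⟨ha, rfl⟩
        exact ⟨_, (hm _).2 ⟨a, ha, rfl⟩, hq _ _⟩
    refine ⟨s, ⟨hs, fun r hr => ?_, fun a ha => ⟨f a, (happ _ _).2 ⟨ha, rfl⟩,
      fun b hb => ((happ _ _).1 hb).2⟩⟩, happ⟩
    obtain ⟨a', ha', rfl⟩ := (hm r).1 hr
    exact ⟨a', _, ha', hq _ _⟩
  · rintro _ ⟨a, ha, rfl⟩ c hc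
    rcases hqk _ _ c hc with h | h
    · exact Or.inl (Ker.mem ha h)
    · exact Or.inr (hker a ha c h)
  · intro g hg e he y
    have hd : ∀ a, F.E (e a) d ↔ F.E a d := fun a => by
      rw [← he.hE a d, he.fix (h1 g (h4 hg))]
    have hqe : ∀ a, F.E a d → q (e a) (f (e a)) = e (q a (f a)) := fun a ha => by
      rw [hinv g (h3 hg) e he a ha]
      exact pr_unique (hq _ _) ((pr_aut e he.hE _ _ _).2 (hq _ _))
    constructor
    · rintro ⟨a, ha, hy⟩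
      obtain ⟨a, rfl⟩ := e.surjective a
      have ha' := (hd a).1 ha
      exact ⟨a, ha', e.injective ((hqe a ha').symm.trans hy)⟩
    · rintro ⟨a, ha, rfl⟩
      exact ⟨e a, (hd a).2 ha, hqe a ha⟩

theorem ord_fix {k j : F.M} (hk : Ord F.E F.U k) (hj : F.E j k) (g : Perm A) : g • j.1 = j.1 := by
  refine smul_fix _ fun a ha => False.elim ?_
  induction j using wfE.induction with | _ j ih => ?_
  obtain ⟨y, hy, h⟩ := kerE (hk.2.1 j hj) ha
  exact ih y hy (hk.2.2.1 j y hj hy) h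

theorem ord_card (c : Cardinal.{u}) :
    ∃ k : F.M, Ord F.E F.U k ∧ Cardinal.mk {x // F.E x k} = Cardinal.lift.{u + 1} c := by
  obtain ⟨o, k, h0, hk, ho, hm⟩ := ordM (F := F) c.ord.ToType
  have hlt : ∀ i j, i < j → F.E (o i) (o j) := fun i j h => (hm _ _).2 ⟨i, h, rfl⟩
  refine ⟨k, ⟨h0, fun x hx => ?_, fun x y hx hy => ?_, fun x y hx hy => ?_⟩, ?_⟩
  · obtain ⟨i, rfl⟩ := (hk x).1 hx
    exact ho i
  · obtain ⟨i, rfl⟩ := (hk x).1 hx
    obtain ⟨j, _, rfl⟩ := (hm _ _).1 hy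
    exact (hk _).2 ⟨j, rfl⟩
  · obtain ⟨i, rfl⟩ := (hk x).1 hx
    obtain ⟨j, rfl⟩ := (hk y).1 hy
    rcases lt_trichotomy i j with h | rfl | h
    · exact Or.inl (hlt _ _ h)
    · exact Or.inr (Or.inl rfl)
    · exact Or.inr (Or.inr (hlt _ _ h))
  · have hinj : Function.Injective o := fun i j h => by
      rcases lt_trichotomy i j with h' | h' | h'
      · exact (wfE.irrefl.irrefl _ (h ▸ hlt _ _ h')).elim
      · exact h'
      · exact (wfE.irrefl.irrefl _ (h ▸ hlt _ _ h')).elim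
    have e : c.ord.ToType ≃ {x // F.E x k} := Equiv.ofBijective (fun i => ⟨o i, (hk _).2 ⟨i, rfl⟩⟩)
      ⟨fun i j h => hinj (congrArg Subtype.val h), fun ⟨x, hx⟩ => by
        obtain ⟨i, rfl⟩ := (hk x).1 hx
        exact ⟨i, rfl⟩⟩
    have := Cardinal.mk_congr_lift e
    rw [Cardinal.mk_ord_toType, Cardinal.lift_id'.{u, u + 1}] at this
    exact this.symm

end Frame

end Pool.Agent.P.MP_4a6a31_lc
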