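import Pool.Agent.P.MP_4a6a31_lc.Sym

/-! The forest of atoms, the ideal of well-founded small trees and the frame built on them. -/

namespace Pool.Agent.P.MP_4a6a31_lc

universe u

open Equiv VV Cardinal

section tr

variable {α : Type*}

/-- The tree map given by a permutation of the letters at every word. -/
def tr (π : List α → Perm α) : List α → List α
  | [] => []
  | c :: w => π w c :: tr π w

theorem tr_inj (π : List α → Perm α) : ∀ w w', tr π w = tr π w' → w = w'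
  | [], [], _ => rfl
  | [], _ :: _, h => by simp [tr] at h
  | _ :: _, [], h => by simp [tr] at h
  | c :: w, c' :: w', h => by
    simp only [tr, List.cons.injEq] at h
    obtain rfl := tr_inj π w w' h.2
    rw [(π w).injective h.1]

theorem tr_surj (π : List α → Perm α) : ∀ w, ∃ w', tr π w' = w
  | [] => ⟨[], rfl⟩
  | c :: w => by
    obtain ⟨w', rfl⟩ := tr_surj π w
    exact ⟨(π w').symm c :: w', by simp [tr]⟩

noncomputable def trE (π : List α → Perm α) : Perm (List α) :=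
  Equiv.ofBijective (tr π) ⟨tr_inj π, tr_surj π⟩

theorem tr_tail (π : List α → Perm α) : ∀ w, tr π w.tail = (tr π w).tail
  | [] => rfl
  | _ :: _ => rfl

theorem tr_fix (π : List α → Perm α) :
    ∀ w, (∀ c w', c :: w' <:+ w → π w' c = c) → tr π w = w
  | [], _ => rfl
  | c :: w, h => by
    rw [tr, h c w (List.suffix_refl _),
      tr_fix π w fun c' w' h' => h c' w' (h'.trans (List.suffix_cons c w))]

theorem ext_perm (L : Set α) (hL : #L < #α) (f : α → α) (hf : Set.InjOn f L) :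
    ∃ π : Perm α, ∀ a ∈ L, π a = f a := by
  obtain ⟨g, hg⟩ := extend_function_of_lt ⟨fun a : L => f a.1,
    fun a b h => Subtype.ext (hf a.2 b.2 h)⟩ hL ⟨Equiv.refl α⟩
  exact ⟨g, fun a ha => hg ⟨a, ha⟩⟩

end tr

abbrev Nd : Type (u + 1) := List Ordinal.{u}

abbrev Wd : Type (u + 1) := List (Ordinal.{u} × Fin 3)

/-- Atoms: a word and a column. -/
abbrev At (I : Type u) : Type (u + 1) := Wd.{u} × I

/-- The child relation inside a set of nodes. -/
def Ch (S : Set Nd.{u}) (s' s : Nd.{u}) : Prop := s' ∈ S ∧ ∃ l, s' = l :: s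

/-- Small trees without infinite branches. -/
structure Good (S : Set Nd.{u}) : Prop where
  small : Small.{u} S
  down : ∀ l s, l :: s ∈ S → s ∈ S
  wf : WellFounded (Ch S)

/-- Automorphisms of the tree of nodes. -/
def TA (τ : Perm Nd.{u}) : Prop := τ [] = [] ∧ ∀ l s, ∃ m, τ (l :: s) = m :: τ s

theorem TA.inv {τ : Perm Nd.{u}} (h : TA τ) : TA τ⁻¹ := by
  refine ⟨by rw [Perm.inv_eq_iff_eq, h.1], fun m s => ?_⟩
  obtain ⟨t, ht⟩ := τ.surjective (m :: s)
  cases t with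
  | nil => rw [h.1] at ht; cases ht
  | cons l t =>
    obtain ⟨m', hm⟩ := h.2 l t
    rw [hm] at ht
    obtain ⟨rfl, rfl⟩ := List.cons.inj ht
    exact ⟨l, by rw [← hm]; simp⟩

theorem TA.mul {τ τ' : Perm Nd.{u}} (h : TA τ) (h' : TA τ') : TA (τ * τ') := by
  refine ⟨by rw [Perm.mul_apply, h'.1, h.1], fun l s => ?_⟩
  obtain ⟨m, hm⟩ := h'.2 l s
  obtain ⟨m', hm'⟩ := h.2 m (τ' s)
  exact ⟨m', by rw [Perm.mul_apply, hm, hm', Perm.mul_apply]⟩

theorem trE_TA (π : Nd.{u} → Perm Ordinal.{u}) : TA (trE π) := ⟨rfl, fun _ _ => ⟨_, rfl⟩⟩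

theorem Good.suffix {S : Set Nd.{u}} (h : Good S) : ∀ {s s'}, s <:+ s' → s' ∈ S → s ∈ S
  | _, [], h1, h2 => (List.suffix_nil.1 h1) ▸ h2
  | s, l :: s', h1, h2 => by
    rcases List.suffix_cons_iff.1 h1 with h1 | h1
    · exact h1 ▸ h2
    · exact h.suffix h1 (h.down _ _ h2)

theorem Good.image {S : Set Nd.{u}} (h : Good S) {τ : Perm Nd.{u}} (hτ : TA τ) :
    Good (τ '' S) := by
  have := h.small
  refine ⟨small_image _ _, ?_, ?_⟩
  · rintro l s ⟨t, ht, e⟩
    obtain ⟨m, hm⟩ := hτ.inv.2 l s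
    rw [← e] at hm
    simp only [Perm.coe_inv, symm_apply_apply] at hm
    exact ⟨τ.symm s, h.down m _ (hm ▸ ht), by simp⟩
  · refine Subrelation.wf ?_ (InvImage.wf (fun s => τ⁻¹ s) h.wf)
    rintro s' s ⟨⟨t, ht, e⟩, l, rfl⟩
    exact ⟨by rw [← e]; simpa using ht, hτ.inv.2 l s⟩

theorem good_empty : Good (∅ : Set Nd.{u}) :=
  ⟨inferInstance, fun _ _ h => h, ⟨fun s => ⟨s, fun _ h => h.1.elim⟩⟩⟩

theorem good_root : Good ({[]} : Set Nd.{u}) :=
  ⟨inferInstance, fun _ _ h => (by cases h), ⟨fun s => ⟨s, fun _ ⟨h, l, e⟩ => by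
    rw [e] at h
    cases h⟩⟩⟩

/-- A union is well-founded if, outside the first tree, it stays in one of the others. -/
theorem wf_glue {S T : Set Nd.{u}} (hS : WellFounded (Ch S)) {ι : Type*} (R : ι → Set Nd.{u})
    (hR : ∀ x, WellFounded (Ch (R x))) (h1 : ∀ s ∈ T, s ∉ S → ∃ x, s ∈ R x)
    (h2 : ∀ x l s, l :: s ∈ T → s ∈ R x → s ∉ S → l :: s ∈ R x ∧ l :: s ∉ S) :
    WellFounded (Ch T) := by
  have h3 : ∀ x s, s ∈ R x → s ∉ S → Acc (Ch T) s := fun x s => by
    induction s using (hR x).induction with | _ s ih => ?_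
    intro hs hs'
    refine ⟨s, ?_⟩
    rintro _ ⟨ht, l, rfl⟩
    obtain ⟨h4, h5⟩ := h2 x l s ht hs hs'
    exact ih _ ⟨h4, l, rfl⟩ h4 h5
  refine ⟨fun s => ?_⟩
  induction s using hS.induction with | _ s ih => ?_
  refine ⟨s, fun s' hs' => ?_⟩
  by_cases h : s' ∈ S
  · exact ih s' ⟨h, hs'.2⟩
  · obtain ⟨x, hx⟩ := h1 s' hs'.1 h
    exact h3 x s' hx h

theorem Good.union {S T : Set Nd.{u}} (hS : Good S) (hT : Good T) : Good (S ∪ T) := by
  have := hS.small
  have := hT.small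
  refine ⟨inferInstance, fun l s h => h.imp (hS.down l s) (hT.down l s),
    wf_glue hS.wf (fun _ : Unit => T) (fun _ => hT.wf)
      (fun s hs hs' => ⟨(), hs.resolve_left hs'⟩) fun _ l s h _ hs => ?_⟩
  exact ⟨h.resolve_left fun h => hs (hS.down l s h), fun h => hs (hS.down l s h)⟩

theorem Good.grow {S : Set Nd.{u}} (hS : Good S) (L : Set Ordinal.{u}) (hL : Small.{u} L) :
    Good (S ∪ Set.image2 List.cons L S) := by
  have := hS.small
  have hd : ∀ l s, l :: s ∈ S ∪ Set.image2 List.cons L S → s ∈ S := by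
    rintro l s (h | ⟨l', -, t, ht, e⟩)
    · exact hS.down l s h
    · exact (List.cons.inj e).2 ▸ ht
  refine ⟨inferInstance, fun l s h => Or.inl (hd l s h), ⟨fun s => ?_⟩⟩
  induction s using hS.wf.induction with | _ s ih => ?_
  refine ⟨s, fun s' hs' => ?_⟩
  by_cases h : s' ∈ S
  · exact ih s' ⟨h, hs'.2⟩
  · refine ⟨s', ?_⟩
    rintro _ ⟨ht, l, rfl⟩
    exact (h (hd l s' ht)).elim

theorem good_suffixes (s : Nd.{u}) : Good {t | t <:+ s} := by
  induction s with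
  | nil => simpa using good_root
  | cons l s ih =>
    have h := ih.grow {l} inferInstance
    have hsub : {t | t <:+ l :: s} ⊆ {t | t <:+ s} ∪ Set.image2 List.cons {l} {t | t <:+ s} := by
      intro t ht
      rcases List.suffix_cons_iff.1 ht with rfl | ht
      · exact Or.inr ⟨l, rfl, s, List.suffix_refl _, rfl⟩
      · exact Or.inl ht
    have := h.small
    exact ⟨small_subset hsub, fun m t ht => (List.suffix_cons m t).trans ht,
      Subrelation.wf (fun h => ⟨hsub h.1, h.2⟩) h.wf⟩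

theorem fresh (L : Set Ordinal.{u}) (hL : Small.{u} L) (ι : Type u) :
    ∃ e : L × ι → Ordinal.{u}, Function.Injective e ∧ ∀ p, e p ∉ L := by
  obtain ⟨b, hb⟩ := Ordinal.bddAbove_of_small (s := L)
  let t : L × ι → Ordinal.{u} := fun p =>
    Ordinal.typein (α := Shrink.{u} (L × ι)) WellOrderingRel (equivShrink _ p)
  refine ⟨fun p => b + 1 + t p, fun p q h => ?_, fun p hp => ?_⟩
  · exact (equivShrink _).injective
      ((Ordinal.typein _).toRelEmbedding.injective (add_left_cancel h))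
  · exact absurd (hb hp) (not_le.2 ((lt_add_one b).trans_le le_self_add))

/-- Amalgamation of small well-founded trees over a common one. -/
theorem amalg_tree {S : Set Nd.{u}} (hS : Good S) (h0 : [] ∈ S) (ι : Type u)
    (R : ι → Set Nd.{u}) (hR : ∀ x, Good (R x)) : ∃ π : ι → Nd.{u} → Perm Ordinal.{u},
      (∀ x l s, l :: s ∈ S → π x s l = l) ∧ Good (S ∪ ⋃ x, trE (π x) '' R x) := by
  classical
  have := hS.small
  have := fun x => (hR x).small
  let L : Set Ordinal.{u} := (fun s : Nd.{u} => s.headD 0) '' (S ∪ ⋃ x, R x)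
  have hL : Small.{u} L := small_image _ _
  obtain ⟨e, he, hfr⟩ := fresh L hL ι
  have hLS : ∀ l s, l :: s ∈ S → l ∈ L := fun l s h => ⟨_, Or.inl h, rfl⟩
  have hLR : ∀ x l s, l :: s ∈ R x → l ∈ L := fun x l s h =>
    ⟨_, Or.inr (Set.mem_iUnion.2 ⟨x, h⟩), rfl⟩
  have hlt : #L < #Ordinal.{u} := by
    have := small_iff_lift_mk_lt_univ.{u + 1, u}.1 hL
    rwa [mk_ordinal, ← lift_id #L]
  have hex : ∀ (x : ι) (s : Nd.{u}), ∃ π : Perm Ordinal.{u}, ∀ l ∈ L,
      π l = if h : l ∈ L ∧ l :: s ∉ S then e (⟨l, h.1⟩, x) else l := fun x s => by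
    refine ext_perm L hlt _ fun l hl l' hl' h => ?_
    split_ifs at h with h1 h2 h2
    · exact congrArg (fun p : L × ι => p.1.1) (he h)
    · exact (hfr _ (h ▸ hl')).elim
    · exact (hfr _ (h ▸ hl)).elim
    · exact h
  choose π hπ using hex
  have hfix : ∀ x l s, l :: s ∈ S → π x s l = l := fun x l s h => by
    rw [hπ x s l (hLS l s h), dif_neg fun h' => h'.2 h]
  have hfix' : ∀ x, ∀ s ∈ S, tr (π x) s = s := fun x s hs =>
    tr_fix _ s fun l t ht => hfix x l t (hS.suffix ht hs)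
  have hG : ∀ x, Good (trE (π x) '' R x) := fun x => (hR x).image (trE_TA _)
  have := fun x => (hG x).small
  have hhead : ∀ x, ∀ s ∈ trE (π x) '' R x, s ∉ S → ∃ l t, s = e (l, x) :: t := by
    rintro x _ ⟨s, hs, rfl⟩ hn
    cases s with
    | nil => exact (hn h0).elim
    | cons l s =>
      have h1 : l :: s ∉ S := fun h => hn (by
        change tr (π x) (l :: s) ∈ S
        rwa [hfix' x _ h])
      refine ⟨⟨l, hLR x l s hs⟩, tr (π x) s, ?_⟩
      change π x s l :: tr (π x) s = _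
      rw [hπ x s l (hLR x l s hs), dif_pos ⟨hLR x l s hs, h1⟩]
  refine ⟨π, hfix, inferInstance, fun l s h => h.imp (hS.down l s) fun h => ?_,
    wf_glue hS.wf _ (fun x => (hG x).wf)
      (fun s hs hs' => Set.mem_iUnion.1 (hs.resolve_left hs')) fun x l s h hx hs => ?_⟩
  · obtain ⟨x, hx⟩ := Set.mem_iUnion.1 h
    exact Set.mem_iUnion.2 ⟨x, (hG x).down l s hx⟩
  · have h1 : l :: s ∉ S := fun h => hs (hS.down l s h)
    obtain ⟨y, hy⟩ := Set.mem_iUnion.1 (h.resolve_left h1)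
    obtain ⟨l1, t1, e1⟩ := hhead x s hx hs
    obtain ⟨l2, t2, e2⟩ := hhead y s ((hG y).down l s hy) hs
    obtain rfl : x = y := congrArg Prod.snd (he (List.cons.inj (e1.symm.trans e2)).1)
    exact ⟨hy, h1⟩

variable {I : Type u}

/-- The node of an atom. -/
def nd (a : At I) : Nd.{u} := a.1.map Prod.fst

/-- The parent of an atom (roots are their own parents). -/
def par (a : At I) : At I := (a.1.tail, a.2)

/-- Automorphisms of the forest of atoms. -/
def GG (I : Type u) : Set (Perm (At I)) :=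
  {g | (∀ a, g (par a) = par (g a)) ∧ ∃ τ, TA τ ∧ ∀ a, nd (g a) = τ (nd a)}

/-- Automorphisms that keep every node and fix `F` pointwise. -/
def Fix (F : Set (At I)) : Set (Perm (At I)) :=
  {g | (∀ a, g (par a) = par (g a)) ∧ (∀ a, nd (g a) = nd a) ∧ ∀ a ∈ F, g a = a}

theorem nd_eq_nil {a : At I} : nd a = [] ↔ a.1 = [] := List.map_eq_nil_iff

theorem comm_inv {g : Perm (At I)} (h : ∀ a, g (par a) = par (g a)) (a : At I) :
    g⁻¹ (par a) = par (g⁻¹ a) := by
  rw [Perm.inv_eq_iff_eq, h]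
  simp

theorem GG_inv {g : Perm (At I)} (h : g ∈ GG I) : g⁻¹ ∈ GG I := by
  obtain ⟨h1, τ, h2, h3⟩ := h
  refine ⟨comm_inv h1, τ⁻¹, h2.inv, fun a => ?_⟩
  rw [Perm.eq_inv_iff_eq, ← h3]
  simp

theorem Fix_sub {F : Set (At I)} {g : Perm (At I)} (h : g ∈ Fix F) : g ∈ GG I :=
  ⟨h.1, 1, ⟨rfl, fun l _ => ⟨l, rfl⟩⟩, h.2.1⟩

theorem Fix_mono {F F' : Set (At I)} (h : F ⊆ F') : Fix F' ⊆ Fix F :=
  fun _ hg => ⟨hg.1, hg.2.1, fun a ha => hg.2.2 a (h ha)⟩

theorem Fix_one (F : Set (At I)) : 1 ∈ Fix F := ⟨fun _ => rfl, fun _ => rfl, fun _ _ => rfl⟩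

theorem Fix_mul {F : Set (At I)} {g g' : Perm (At I)} (h : g ∈ Fix F) (h' : g' ∈ Fix F) :
    g * g' ∈ Fix F :=
  ⟨fun a => by rw [Perm.mul_apply, h'.1, h.1, Perm.mul_apply],
    fun a => by rw [Perm.mul_apply, h.2.1, h'.2.1],
    fun a ha => by rw [Perm.mul_apply, h'.2.2 a ha, h.2.2 a ha]⟩

theorem Fix_inv {F : Set (At I)} {g : Perm (At I)} (h : g ∈ Fix F) : g⁻¹ ∈ Fix F :=
  ⟨comm_inv h.1, fun a => by rw [← h.2.1]; simp,
    fun a ha => by rw [Perm.inv_eq_iff_eq, h.2.2 a ha]⟩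

theorem Fix_conj {F : Set (At I)} {g k : Perm (At I)} (hg : g ∈ GG I) (hk : k ∈ Fix (g '' F)) :
    g⁻¹ * k * g ∈ Fix F := by
  obtain ⟨h1, τ, _, h3⟩ := hg
  refine ⟨fun a => ?_, fun a => τ.injective ?_, fun a ha => ?_⟩
  · simp only [Perm.mul_apply]
    rw [h1, hk.1, comm_inv h1]
  · simp only [Perm.mul_apply]
    rw [← h3, ← h3, ← hk.2.1 (g a)]
    simp
  · simp only [Perm.mul_apply]
    rw [hk.2.2 _ ⟨a, ha, rfl⟩]
    simp

/-- The column of the image only depends on the column. -/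
theorem col_apply {g : Perm (At I)} (h : ∀ a, g (par a) = par (g a)) :
    ∀ (w : Wd.{u}) (i : I), (g (w, i)).2 = (g ([], i)).2
  | [], _ => rfl
  | c :: w, i => (congrArg Prod.snd (h (c :: w, i))).symm.trans (col_apply h w i)

theorem GG_nil {g : Perm (At I)} (h : g ∈ GG I) (a : At I) : (g a).1 = [] ↔ a.1 = [] := by
  obtain ⟨-, τ, h2, h3⟩ := h
  rw [← nd_eq_nil, ← nd_eq_nil, h3, ← τ.injective.eq_iff (a := nd a), h2.1]

/-- Tree maps acting column by column. -/
noncomputable def colE (π : I → Wd.{u} → Perm (Ordinal.{u} × Fin 3)) : Perm (At I) :=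
  Equiv.prodCongrLeft fun i => trE (π i)

theorem colE_apply (π : I → Wd.{u} → Perm (Ordinal.{u} × Fin 3)) (a : At I) :
    colE π a = (tr (π a.2) a.1, a.2) := rfl

theorem colE_par (π : I → Wd.{u} → Perm (Ordinal.{u} × Fin 3)) (a : At I) :
    colE π (par a) = par (colE π a) := Prod.ext (tr_tail _ _) rfl

theorem tr_nd (π : Wd.{u} → Perm (Ordinal.{u} × Fin 3)) (π' : Nd.{u} → Perm Ordinal.{u})
    (h : ∀ w c, (π w c).1 = π' (w.map Prod.fst) c.1) :
    ∀ w, (tr π w).map Prod.fst = tr π' (w.map Prod.fst)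
  | [] => rfl
  | c :: w => by rw [tr, List.map_cons, List.map_cons, tr, h, tr_nd π π' h w]

/-- Only ancestors are definable from an atom. -/
theorem move (a b : At I) (ha : a.1 ≠ []) (hab : ¬ (a.2 = b.2 ∧ a.1 <:+ b.1)) :
    ∃ g ∈ Fix {c : At I | c.2 ≠ a.2 ∨ c.1 = [] ∨ c = b}, g a ≠ a := by
  classical
  obtain ⟨w, i⟩ := a
  cases w with
  | nil => exact (ha rfl).elim
  | cons c w =>
    obtain ⟨l, x⟩ := c
    have hx : ∃ x', x' ≠ x ∧ ¬ (l, x') :: w <:+ b.1 := by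
      by_contra hn
      have h0 : ∀ y : Fin 3, y + 1 ≠ y ∧ y + 2 ≠ y ∧ y + 1 ≠ y + 2 := by decide
      have h1 := (not_not.1 fun h => hn ⟨x + 1, (h0 x).1, h⟩)
      have h2 := (not_not.1 fun h => hn ⟨x + 2, (h0 x).2.1, h⟩)
      have h3 := (List.suffix_of_suffix_length_le h1 h2 le_rfl).eq_of_length rfl
      exact (h0 x).2.2 (congrArg Prod.snd (List.cons.inj h3).1)
    obtain ⟨x', hx, hx'⟩ := hx
    let π : I → Wd.{u} → Perm (Ordinal.{u} × Fin 3) := fun j v =>
      if j = i ∧ v = w then swap (l, x) (l, x') else 1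
    refine ⟨colE π, ⟨colE_par π, fun a => ?_, fun c hc => Prod.ext ?_ rfl⟩, fun h => ?_⟩
    · refine (tr_nd _ (fun _ => 1) (fun v c => ?_) _).trans (tr_fix _ _ fun _ _ _ => rfl)
      simp only [π]
      split_ifs
      · rw [swap_apply_def]
        split_ifs with h1 h2
        · rw [h1]; rfl
        · rw [h2]; rfl
        · rfl
      · rfl
    · refine tr_fix _ _ fun d v hd => ?_
      simp only [π]
      split_ifs with h1
      · obtain ⟨h1, rfl⟩ := h1
        rcases hc with hc | hc | rfl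
        · exact (hc h1).elim
        · rw [hc] at hd
          simp at hd
        · exact swap_apply_of_ne_of_ne (fun h => hab ⟨h1.symm, h ▸ hd⟩) fun h => hx' (h ▸ hd)
      · rfl
    · have h1 : π i w (l, x) = (l, x) := (List.cons.inj (congrArg Prod.fst h)).1
      simp only [π, and_self, if_true, swap_apply_left] at h1
      exact hx (congrArg Prod.snd h1)

/-- An invariant ideal of supports. -/
structure Idl (I : Type u) where
  S : Set (Set (At I))
  empty : ∅ ∈ S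
  single : ∀ a, {a} ∈ S
  union : ∀ F ∈ S, ∀ F' ∈ S, F ∪ F' ∈ S
  image : ∀ g ∈ GG I, ∀ F ∈ S, g '' F ∈ S
  avoid : ∀ F : ℕ → Set (At I), (∀ n, F n ∈ S) → ∃ i, ∀ n, ∀ a ∈ F n, a.2 = i → a.1 = []

theorem at_ext {a b : At I} (h1 : nd a = nd b) (h2 : a.1.map Prod.snd = b.1.map Prod.snd)
    (h3 : a.2 = b.2) : a = b := by
  refine Prod.ext ?_ h3
  rw [← List.zip_unzip a.1, ← List.zip_unzip b.1, List.unzip_fst, List.unzip_snd,
    List.unzip_fst, List.unzip_snd, h2]
  exact congrArg (List.zip · _) h1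

theorem small_over {S : Set Nd.{u}} (hS : Small.{u} S) : Small.{u} {a : At I | nd a ∈ S} :=
  small_of_injective (β := S × List (Fin 3) × I)
    (f := fun a => (⟨nd a.1, a.2⟩, a.1.1.map Prod.snd, a.1.2)) fun _ _ h => Subtype.ext
      (at_ext (congrArg (fun p : S × List (Fin 3) × I => p.1.1) h)
        (congrArg (fun p : S × List (Fin 3) × I => p.2.1) h)
        (congrArg (fun p : S × List (Fin 3) × I => p.2.2) h))

/-- The frame of the model. -/
def frame (D : Idl I) : Frame (At I) where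
  H := Fix '' D.S
  J := {K | ∃ S, Good S ∧ ∀ a ∈ K, nd a ∈ S}
  G := GG I
  H_ne := ⟨_, ∅, D.empty, rfl⟩
  H_dir := by
    rintro _ ⟨F, hF, rfl⟩ _ ⟨F', hF', rfl⟩
    exact ⟨_, ⟨_, D.union F hF F' hF', rfl⟩, Fix_mono Set.subset_union_left,
      Fix_mono Set.subset_union_right⟩
  H_sub := by
    rintro _ ⟨F, -, rfl⟩ g hg
    exact Fix_sub hg
  G_inv _ := GG_inv
  G_conj := by
    rintro g hg _ ⟨F, hF, rfl⟩
    exact ⟨_, ⟨_, D.image g hg F hF, rfl⟩, fun k hk => Fix_conj hg hk⟩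
  G_J := by
    rintro g ⟨-, τ, h2, h3⟩ K ⟨S, hS, hK⟩
    refine ⟨_, hS.image h2, ?_⟩
    rintro _ ⟨a, ha, rfl⟩
    exact ⟨_, hK a ha, (h3 a).symm⟩
  J_empty := ⟨_, good_empty, fun _ h => h.elim⟩
  J_mono := fun _ ⟨S, hS, hK⟩ _ h => ⟨S, hS, fun a ha => hK a (h ha)⟩
  J_union := fun _ ⟨S, hS, hK⟩ _ ⟨T, hT, hK'⟩ =>
    ⟨_, hS.union hT, fun a ha => ha.imp (hK a) (hK' a)⟩
  J_small := fun _ ⟨S, hS, hK⟩ => by
    have := small_over (I := I) hS.small
    exact small_subset (s := {a : At I | nd a ∈ S}) hK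
  J_sym := fun _ ⟨S, hS, hK⟩ => ⟨{a | nd a ∈ S}, ⟨S, hS, fun _ h => h⟩, hK, _,
    ⟨∅, D.empty, rfl⟩, fun g hg a => by
      change nd (g a) ∈ S ↔ nd a ∈ S
      rw [hg.2.1]⟩
  amalg := by
    rintro K ⟨S, hS, hK⟩ ι L hL
    choose R hR hLR using hL
    have hS' := hS.union good_root
    obtain ⟨π, hfix, hG⟩ := amalg_tree hS' (Or.inr rfl) ι R hR
    let ρ : ι → I → Wd.{u} → Perm (Ordinal.{u} × Fin 3) := fun x _ w =>
      Equiv.prodCongr (π x (w.map Prod.fst)) (Equiv.refl _)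
    have hnd : ∀ x a, nd (colE (ρ x) a) = trE (π x) (nd a) := fun x a =>
      tr_nd _ _ (fun _ _ => rfl) _
    refine ⟨fun x => colE (ρ x), fun x => ⟨colE_par _, _, trE_TA _, hnd x⟩,
      fun x a ha => Prod.ext (tr_fix _ _ fun c w hc => Prod.ext ?_ rfl) rfl, _, hG, ?_⟩
    · exact hfix x _ _ (hS'.suffix (hc.map Prod.fst) (Or.inl (hK a ha)))
    · intro a ha
      obtain ⟨x, b, hb, rfl⟩ := Set.mem_iUnion.1 ha
      exact Or.inr (Set.mem_iUnion.2 ⟨x, _, hLR x b hb, (hnd x b).symm⟩)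

end Pool.Agent.P.MP_4a6a31_lc
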