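import Pool.Agent.P.MP_4a6a31_lc.Defs

/-! The cumulative universe of small sets over a type of atoms. -/

namespace Pool.Agent.P.MP_4a6a31_lc

universe u

/-- Pre-sets over atoms. -/
inductive PS (A : Type (u + 1)) : Type (u + 1)
  | atom (a : A) : PS A
  | mk (ι : Type u) (f : ι → PS A) : PS A

namespace PS

variable {A : Type (u + 1)}

def Eqv : PS A → PS A → Prop
  | atom a, atom b => a = b
  | mk _ f, mk _ g => (∀ i, ∃ j, Eqv (f i) (g j)) ∧ (∀ j, ∃ i, Eqv (f i) (g j))
  | atom _, mk _ _ => False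
  | mk _ _, atom _ => False

theorem Eqv.refl : ∀ x : PS A, Eqv x x
  | atom _ => rfl
  | mk _ f => ⟨fun i => ⟨i, Eqv.refl (f i)⟩, fun i => ⟨i, Eqv.refl (f i)⟩⟩

theorem Eqv.symm : ∀ {x y : PS A}, Eqv x y → Eqv y x
  | atom _, atom _, h => Eq.symm h
  | mk _ _, mk _ _, h =>
    ⟨fun j => (h.2 j).imp fun _ hi => Eqv.symm hi, fun i => (h.1 i).imp fun _ hj => Eqv.symm hj⟩
  | atom _, mk _ _, h => h.elim
  | mk _ _, atom _, h => h.elim

theorem Eqv.trans : ∀ {x y z : PS A}, Eqv x y → Eqv y z → Eqv x z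
  | atom _, atom _, atom _, h, h' => Eq.trans h h'
  | mk _ _, mk _ _, mk _ _, h, h' =>
    ⟨fun i => by
      obtain ⟨j, hj⟩ := h.1 i
      obtain ⟨k, hk⟩ := h'.1 j
      exact ⟨k, Eqv.trans hj hk⟩,
    fun k => by
      obtain ⟨j, hj⟩ := h'.2 k
      obtain ⟨i, hi⟩ := h.2 j
      exact ⟨i, Eqv.trans hi hj⟩⟩
  | atom _, mk _ _, _, h, _ => h.elim
  | mk _ _, atom _, _, h, _ => h.elim
  | atom _, atom _, mk _ _, _, h => h.elim
  | mk _ _, mk _ _, atom _, _, h => h.elim

instance setoid (A : Type (u + 1)) : Setoid (PS A) := ⟨Eqv, Eqv.refl, Eqv.symm, Eqv.trans⟩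

def Mem (y : PS A) : PS A → Prop
  | atom _ => False
  | mk _ f => ∃ i, Eqv y (f i)

theorem Mem.congr : ∀ {y y' x x' : PS A}, Eqv y y' → Eqv x x' → Mem y x → Mem y' x'
  | _, _, atom _, _, _, _, h => h.elim
  | _, _, mk _ _, atom _, _, h, _ => h.elim
  | _, _, mk _ _, mk _ _, hy, hx, ⟨i, hi⟩ => by
    obtain ⟨j, hj⟩ := hx.1 i
    exact ⟨j, (hy.symm.trans hi).trans hj⟩

def map (g : A → A) : PS A → PS A
  | atom a => atom (g a)
  | mk ι f => mk ι fun i => map g (f i)

theorem map_congr (g : A → A) : ∀ {x y : PS A}, Eqv x y → Eqv (map g x) (map g y)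
  | atom _, atom _, h => congrArg g h
  | mk _ _, mk _ _, h =>
    ⟨fun i => (h.1 i).imp fun _ hj => map_congr g hj,
      fun j => (h.2 j).imp fun _ hi => map_congr g hi⟩
  | atom _, mk _ _, h => h.elim
  | mk _ _, atom _, h => h.elim

end PS

/-- The universe over `A`. -/
def VV (A : Type (u + 1)) : Type (u + 1) := Quotient (PS.setoid A)

namespace VV

variable {A : Type (u + 1)}

def atom (a : A) : VV A := Quotient.mk _ (PS.atom a)

def mem (y x : VV A) : Prop :=
  Quotient.lift₂ (s₁ := PS.setoid A) (s₂ := PS.setoid A) PS.Mem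
    (fun _ _ _ _ h h' => propext ⟨PS.Mem.congr h h', PS.Mem.congr h.symm h'.symm⟩) y x

def IsAt (x : VV A) : Prop := ∃ a, x = atom a

def map (g : A → A) : VV A → VV A :=
  Quotient.map (sa := PS.setoid A) (sb := PS.setoid A) (PS.map g) fun _ _ h => PS.map_congr g h

theorem atom_inj {a b : A} (h : atom a = atom b) : a = b := Quotient.exact h

theorem not_mem_atom (y : VV A) (a : A) : ¬ mem y (atom a) := by
  induction y using Quotient.inductionOn
  exact fun h => h

theorem not_mem_of_isAt {x y : VV A} (h : IsAt x) : ¬ mem y x := by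
  obtain ⟨a, rfl⟩ := h
  exact not_mem_atom y a

theorem mem_mk {ι : Type u} (f : ι → PS A) (y : VV A) :
    mem y (Quotient.mk _ (PS.mk ι f)) ↔ ∃ i, y = Quotient.mk _ (f i) := by
  induction y using Quotient.inductionOn
  exact ⟨fun ⟨i, hi⟩ => ⟨i, Quotient.sound hi⟩, fun ⟨i, hi⟩ => ⟨i, Quotient.exact hi⟩⟩

theorem not_isAt_mk {ι : Type u} (f : ι → PS A) :
    ¬ IsAt (Quotient.mk _ (PS.mk ι f) : VV A) := fun ⟨_, h⟩ => Quotient.exact h

theorem ext {x y : VV A} (hx : ¬ IsAt x) (hy : ¬ IsAt y) (h : ∀ z, mem z x ↔ mem z y) :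
    x = y := by
  induction x using Quotient.inductionOn with | h x => ?_
  induction y using Quotient.inductionOn with | h y => ?_
  cases x with
  | atom a => exact (hx ⟨a, rfl⟩).elim
  | mk ι f =>
    cases y with
    | atom a => exact (hy ⟨a, rfl⟩).elim
    | mk κ g =>
      apply Quotient.sound
      refine ⟨fun i => ?_, fun j => ?_⟩
      · obtain ⟨j, hj⟩ := (mem_mk g _).1 ((h _).1 ((mem_mk f _).2 ⟨i, rfl⟩))
        exact ⟨j, Quotient.exact hj⟩
      · obtain ⟨i, hi⟩ := (mem_mk f _).1 ((h _).2 ((mem_mk g _).2 ⟨j, rfl⟩))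
        exact ⟨i, Quotient.exact hi.symm⟩

theorem wf : WellFounded (mem : VV A → VV A → Prop) := by
  refine ⟨fun x => ?_⟩
  induction x using Quotient.inductionOn with | h x => ?_
  induction x with
  | atom a => exact ⟨_, fun y h => (not_mem_atom y a h).elim⟩
  | mk ι f ih =>
    refine ⟨_, fun y h => ?_⟩
    obtain ⟨i, rfl⟩ := (mem_mk f y).1 h
    exact ih i

theorem small_mem (x : VV A) : Small.{u} {y | mem y x} := by
  induction x using Quotient.inductionOn with | h x => ?_
  cases x with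
  | atom a =>
    have : {y | mem y (Quotient.mk _ (PS.atom a) : VV A)} = ∅ :=
      Set.eq_empty_of_forall_notMem fun y => not_mem_atom y a
    rw [this]
    infer_instance
  | mk ι f =>
    have hr : Small.{u} (Set.range (fun i => Quotient.mk _ (f i) : ι → VV A)) := small_range _
    refine small_subset (s := Set.range (fun i => Quotient.mk _ (f i) : ι → VV A)) fun y hy => ?_
    obtain ⟨i, hi⟩ := (mem_mk f y).1 hy
    exact ⟨i, hi.symm⟩

theorem exists_set (S : Set (VV A)) (hS : Small.{u} S) :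
    ∃ x : VV A, ¬ IsAt x ∧ ∀ y, mem y x ↔ y ∈ S := by
  have hs : ∀ y : VV A, ∃ p : PS A, Quotient.mk _ p = y := fun y => Quotient.exists_rep y
  choose o ho using hs
  refine ⟨Quotient.mk _ (PS.mk (Shrink.{u} S) fun i => o ((equivShrink S).symm i).1),
    not_isAt_mk _, fun y => ?_⟩
  rw [mem_mk]
  constructor
  · rintro ⟨i, rfl⟩
    rw [ho]
    exact ((equivShrink S).symm i).2
  · intro hy
    exact ⟨equivShrink S ⟨y, hy⟩, by rw [ho]; simp⟩

theorem map_atom (g : A → A) (a : A) : map g (atom a) = atom (g a) := rfl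

theorem isAt_map (g : A → A) (x : VV A) : IsAt (map g x) ↔ IsAt x := by
  induction x using Quotient.inductionOn with | h x => ?_
  cases x with
  | atom a => exact ⟨fun _ => ⟨a, rfl⟩, fun _ => ⟨g a, rfl⟩⟩
  | mk ι f => exact ⟨fun h => (not_isAt_mk _ h).elim, fun h => (not_isAt_mk _ h).elim⟩

theorem mem_map (g : A → A) (x y : VV A) : mem y (map g x) ↔ ∃ z, mem z x ∧ map g z = y := by
  induction x using Quotient.inductionOn with | h x => ?_
  cases x with
  | atom a =>
    exact ⟨fun h => (not_mem_atom _ _ h).elim, fun ⟨_, h, _⟩ => (not_mem_atom _ _ h).elim⟩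
  | mk ι f =>
    change mem y (Quotient.mk _ (PS.mk ι fun i => PS.map g (f i))) ↔ _
    rw [mem_mk]
    constructor
    · rintro ⟨i, rfl⟩
      exact ⟨_, (mem_mk f _).2 ⟨i, rfl⟩, rfl⟩
    · rintro ⟨z, hz, rfl⟩
      obtain ⟨i, rfl⟩ := (mem_mk f _).1 hz
      exact ⟨i, rfl⟩

/-- The atoms in the transitive closure. -/
inductive Ker (a : A) : VV A → Prop
  | atom : Ker a (atom a)
  | mem {x y : VV A} : mem y x → Ker a y → Ker a x

theorem ker_atom {a b : A} (h : Ker a (atom b)) : a = b := by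
  generalize hx : atom b = x at h
  cases h with
  | atom => exact (atom_inj hx).symm
  | mem hy _ => exact (not_mem_atom _ _ (hx ▸ hy)).elim

theorem ker_set {a : A} {x : VV A} (hx : ¬ IsAt x) (h : Ker a x) : ∃ y, mem y x ∧ Ker a y := by
  cases h with
  | atom => exact (hx ⟨a, rfl⟩).elim
  | mem hy hk => exact ⟨_, hy, hk⟩

theorem map_agree {g g' : A → A} (x : VV A) (h : ∀ a, Ker a x → g a = g' a) :
    map g x = map g' x := by
  induction x using wf.induction with | _ x ih => ?_
  by_cases hx : IsAt x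
  · obtain ⟨a, rfl⟩ := hx
    rw [map_atom, map_atom, h a Ker.atom]
  · refine ext (by rwa [isAt_map]) (by rwa [isAt_map]) fun z => ?_
    rw [mem_map, mem_map]
    refine exists_congr fun y => and_congr_right fun hy => ?_
    rw [ih y hy fun a ha => h a (Ker.mem hy ha)]

theorem map_id (x : VV A) : map id x = x := by
  induction x using wf.induction with | _ x ih => ?_
  by_cases hx : IsAt x
  · obtain ⟨a, rfl⟩ := hx
    rfl
  · refine ext (by rwa [isAt_map]) hx fun z => ?_
    rw [mem_map]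
    exact ⟨fun ⟨y, hy, e⟩ => by rw [← e, ih y hy]; exact hy, fun hz => ⟨z, hz, ih z hz⟩⟩

theorem map_map (g g' : A → A) (x : VV A) : map (g ∘ g') x = map g (map g' x) := by
  induction x using wf.induction with | _ x ih => ?_
  by_cases hx : IsAt x
  · obtain ⟨a, rfl⟩ := hx
    rfl
  · refine ext (by rwa [isAt_map]) (by rwa [isAt_map, isAt_map]) fun z => ?_
    simp only [mem_map]
    constructor
    · rintro ⟨y, hy, rfl⟩
      exact ⟨_, ⟨y, hy, rfl⟩, (ih y hy).symm⟩
    · rintro ⟨_, ⟨y, hy, rfl⟩, rfl⟩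
      exact ⟨y, hy, ih y hy⟩

instance : MulAction (Equiv.Perm A) (VV A) where
  smul g x := map g x
  one_smul := map_id
  mul_smul g g' x := map_map g g' x

theorem smul_atom (g : Equiv.Perm A) (a : A) : g • atom a = atom (g a) := rfl

theorem isAt_smul (g : Equiv.Perm A) (x : VV A) : IsAt (g • x) ↔ IsAt x := isAt_map g x

theorem mem_smul (g : Equiv.Perm A) (x y : VV A) : mem y (g • x) ↔ ∃ z, mem z x ∧ g • z = y :=
  mem_map g x y

theorem smul_mem_smul (g : Equiv.Perm A) (x y : VV A) : mem (g • y) (g • x) ↔ mem y x := by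
  rw [mem_smul]
  exact ⟨fun ⟨z, hz, e⟩ => (MulAction.injective g e) ▸ hz, fun h => ⟨y, h, rfl⟩⟩

theorem smul_agree {g g' : Equiv.Perm A} (x : VV A) (h : ∀ a, Ker a x → g a = g' a) :
    g • x = g' • x := map_agree x h

theorem smul_fix {g : Equiv.Perm A} (x : VV A) (h : ∀ a, Ker a x → g a = a) : g • x = x := by
  rw [smul_agree (g' := 1) x h, one_smul]

theorem ker_smul (g : Equiv.Perm A) {a : A} {x : VV A} (h : Ker a x) : Ker (g a) (g • x) := by
  induction h with
  | atom => exact Ker.atom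
  | mem hy _ ih => exact Ker.mem ((smul_mem_smul g _ _).2 hy) ih

theorem ker_smul' (g : Equiv.Perm A) {a : A} {x : VV A} (h : Ker a (g • x)) :
    Ker (g⁻¹ a) x := by
  have := ker_smul g⁻¹ h
  rwa [inv_smul_smul] at this

/-- A set is fixed as soon as membership in it is invariant. -/
theorem smul_eq_of {g : Equiv.Perm A} {x : VV A} (hx : ¬ IsAt x)
    (h : ∀ y, mem (g • y) x ↔ mem y x) : g • x = x := by
  refine ext (by rwa [isAt_smul]) hx fun z => ?_
  rw [← smul_inv_smul g z, smul_mem_smul, h]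

end VV

end Pool.Agent.P.MP_4a6a31_lc
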